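import Pool.Agent.H.MP_067393_an.Def

set_option autoImplicit false

namespace Pool.Agent.H.MP_067393_an

open scoped TensorProduct
open PiTensorProduct Filter Topology Finset

universe u

section olddefs

variable {A : Type} {X : Type u} [NonUnitalNormedRing A] [NormedSpace ℂ A]
  [NormedAddCommGroup X] [NormedSpace ℂ X]

/-- `l`, `r` are commuting bounded left and right actions. -/
def IsBimod (l r : A →L[ℂ] X →L[ℂ] X) : Prop :=
  (∀ a b x, l (a * b) x = l a (l b x)) ∧ (∀ a b x, r (a * b) x = r b (r a x)) ∧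
    ∀ a b x, l a (r b x) = r b (l a x)

/-- `d` is the Hochschild boundary. -/
def IsBd (l r : A →L[ℂ] X →L[ℂ] X) (d : ∀ n, C A X (n + 1) →L[ℂ] C A X n) : Prop :=
  ∀ (n : ℕ) (x : X) (a : Fin (n + 1) → A), d n (el x a) = el (r (a 0) x) (Fin.tail a) +
    ∑ i : Fin n, (-1 : ℤ) ^ (i.val + 1) • el x (Fin.contractNth i.castSucc (· * ·) a) +
    (-1 : ℤ) ^ (n + 1) • el (l (a (Fin.last n)) x) (Fin.init a)

end olddefs

section comb

variable {A Y G : Type*} [Semigroup A] [AddCommGroup G]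

/-- set level boundary -/
def D (l r : A → Y → Y) (n : ℕ) (g : Y → (Fin n → A) → G) (x : Y) (a : Fin (n + 1) → A) : G :=
  g (r (a 0) x) (Fin.tail a) +
    ∑ i : Fin n, (-1 : ℤ) ^ (i.val + 1) • g x (Fin.contractNth i.castSucc (· * ·) a) +
    (-1 : ℤ) ^ (n + 1) • g (l (a (Fin.last n)) x) (Fin.init a)

lemma cn_zero {n : ℕ} (v : A) (w : Fin (n + 1) → A) :
    Fin.contractNth (Fin.castSucc (0 : Fin (n + 1))) (· * ·) (Fin.cons v w : Fin (n + 2) → A) =
      Fin.cons (v * w 0) (Fin.tail w) := by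
  ext k
  refine Fin.cases ?_ (fun k => ?_) k
  · rw [Fin.contractNth_apply_of_eq _ _ _ _ rfl]; rfl
  · rw [Fin.contractNth_apply_of_gt _ _ _ _ (by simp)]; rfl

lemma cn_succ {n : ℕ} (v : A) (w : Fin (n + 1) → A) (i : Fin n) :
    Fin.contractNth (Fin.castSucc i.succ) (· * ·) (Fin.cons v w : Fin (n + 2) → A) =
      Fin.cons v (Fin.contractNth i.castSucc (· * ·) w) := by
  ext k
  refine Fin.cases ?_ (fun k => ?_) k
  · rw [Fin.contractNth_apply_of_lt _ _ _ _ (by simp)]; rfl
  · simp only [Fin.contractNth, Fin.cons_succ, Fin.val_succ, Fin.val_castSucc, add_lt_add_iff_right,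
      add_left_inj, ← Fin.succ_castSucc]

omit [Semigroup A] in
lemma init_cons {n : ℕ} (v : A) (w : Fin (n + 1) → A) :
    Fin.init (Fin.cons v w : Fin (n + 2) → A) = Fin.cons v (Fin.init w) := by
  ext k
  refine Fin.cases rfl (fun k => rfl) k

lemma D_succ (l r : A → Y → Y) (n : ℕ) (g : Y → (Fin (n + 1) → A) → G) (x : Y) (v : A)
    (w : Fin (n + 1) → A) : D l r (n + 1) g x (Fin.cons v w) = g (r v x) w -
      D (fun c (y : Y × A) => (l c y.1, y.2)) (fun c y => (y.1, y.2 * c)) n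
        (fun y u => g y.1 (Fin.cons y.2 u)) (x, v) w := by
  simp only [D, Fin.sum_univ_succ, cn_zero, cn_succ, init_cons, Fin.cons_zero, Fin.tail_cons,
    Fin.val_succ, ← Fin.succ_last, Fin.cons_succ, pow_succ (-1 : ℤ) (_ + 1), mul_neg, mul_one,
    neg_smul, sum_neg_distrib, Fin.val_zero, zero_add, pow_one, one_smul]
  abel

lemma D_zero (l r : A → Y → Y) (g : Y → (Fin 0 → A) → G) (x : Y) (a : Fin 1 → A) :
    D l r 0 g x a = g (r (a 0) x) ![] - g (l (a 0) x) ![] := by
  simp [D, sub_eq_add_neg, Subsingleton.elim (Fin.tail a) ![], Subsingleton.elim (Fin.init a) ![]]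

lemma D_sub (l r : A → Y → Y) (n : ℕ) (g h : Y → (Fin n → A) → G) (x : Y) (a : Fin (n + 1) → A) :
    D l r n (fun y u => g y u - h y u) x a = D l r n g x a - D l r n h x a := by
  simp only [D, smul_sub, sum_sub_distrib]
  abel

universe v in
lemma DD (n : ℕ) : ∀ {Y : Type (max u v)} {A : Type v} [Semigroup A] (l r : A → Y → Y),
    (∀ a b x, l (a * b) x = l a (l b x)) → (∀ a b x, r (a * b) x = r b (r a x)) →
    (∀ a b x, l a (r b x) = r b (l a x)) → ∀ (g : Y → (Fin n → A) → G) (x : Y)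
    (a : Fin (n + 2) → A), D l r (n + 1) (D l r n g) x a = 0 := by
  induction n with
  | zero =>
    intro Y A _ l r h1 h2 h3 g x a
    rw [← Fin.cons_self_tail a, D_succ]
    simp [D_zero, h1, h2, h3]
  | succ n ih =>
    intro Y A _ l r h1 h2 h3 g x a
    rw [← Fin.cons_self_tail a, D_succ]
    simp only [D_succ l r n, D_sub]
    rw [ih _ _ (by simp [h1]) (by simp [mul_assoc]) (by simp)]
    simp [D, h2, h3]

end comb

variable {A : Type} {X : Type u} [NonUnitalNormedRing A] [NormedSpace ℂ A]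
  [NormedAddCommGroup X] [NormedSpace ℂ X] {n : ℕ}

/-- bundled elementary tensors -/
noncomputable def elM : X →ₗ[ℂ] MultilinearMap ℂ (fun _ : Fin n => A) (C A X n) :=
  (lift (R := ℂ) (s := fun _ : Fin n => A)).symm.toLinearMap ∘ₗ
    (TensorProduct.mk ℂ X (TensorPower ℂ n A)).compr₂
      (UniformSpace.Completion.toComplL (𝕜 := ℂ) (E := Ch A X n)).toLinearMap

lemma elM_apply (x : X) (a : Fin n → A) : elM x a = el x a := rfl

lemma norm_el (x : X) (a : Fin n → A) : ‖el x a‖ ≤ ‖x‖ * ∏ i, ‖a i‖ := by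
  rw [el, UniformSpace.Completion.norm_coe]
  exact csInf_le ⟨0, costs_bdd _⟩ ⟨[(x, a)], by simp, by simp⟩

lemma ind (S : Submodule ℂ (C A X n)) (hS : IsClosed (S : Set (C A X n)))
    (h : ∀ x a, el x a ∈ S) (u : C A X n) : u ∈ S := by
  refine UniformSpace.Completion.induction_on u hS fun z => ?_
  obtain ⟨_, l, rfl, -⟩ := costs_nonempty z
  induction l with
  | nil => exact (UniformSpace.Completion.coe_zero (α := Ch A X n)).symm ▸ S.zero_mem
  | cons p l ih =>
    exact (UniformSpace.Completion.coe_add (α := Ch A X n) _ _).symm ▸ S.add_mem (h p.1 p.2) ih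

variable {G : Type*} [NormedAddCommGroup G] [NormedSpace ℂ G]

lemma ext {S T : C A X n →L[ℂ] G} (h : ∀ x a, S (el x a) = T (el x a)) (u : C A X n) : S u = T u :=
  ind (LinearMap.eqLocus S.toLinearMap T.toLinearMap) (isClosed_eq S.continuous T.continuous) h u

lemma tend {ι : Type*} {F : Filter ι} {T : ι → C A X n →L[ℂ] G} {K : ℝ} (hK : ∀ i, ‖T i‖ ≤ K)
    (h : ∀ x a, Tendsto (fun i => T i (el x a)) F (𝓝 0)) (u : C A X n) :
    Tendsto (fun i => T i u) F (𝓝 0) := by
  refine ind ⟨⟨⟨{u | Tendsto (fun i => T i u) F (𝓝 0)}, fun ha hb => by simpa using ha.add hb⟩,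
    by simpa using tendsto_const_nhds⟩, fun c u hu => by simpa using hu.const_smul c⟩ ?_ h u
  exact (LipschitzWith.uniformEquicontinuous (fun i => T i) K.toNNReal fun i =>
    (T i).lipschitz.weaken ((Real.le_toNNReal_iff_coe_le ((norm_nonneg _).trans (hK i))).2
      (hK i))).equicontinuous.isClosed_setOfPred_tendsto continuous_const

lemma exL [CompleteSpace G] (g : X →ₗ[ℂ] MultilinearMap ℂ (fun _ : Fin n => A) G) {K : ℝ}
    (hK : 0 ≤ K) (h : ∀ x a, ‖g x a‖ ≤ K * (‖x‖ * ∏ i, ‖a i‖)) :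
    ∃ L : C A X n →L[ℂ] G, ‖L‖ ≤ K ∧ ∀ x a, L (el x a) = g x a := by
  let f : Ch A X n →ₗ[ℂ] G := TensorProduct.lift
    ((lift (R := ℂ) (s := fun _ : Fin n => A)).toLinearMap ∘ₗ g)
  have f1 : ∀ x a, f (x ⊗ₜ[ℂ] tprod ℂ a) = g x a := fun x a => lift.tprod a
  have f2 : ∀ z, ‖f z‖ ≤ K * ‖z‖ := fun z => by
    refine le_of_forall_pos_le_add fun ε hε => ?_
    obtain ⟨_, ⟨l, rfl, rfl⟩, h2⟩ := exists_lt_of_csInf_lt (costs_nonempty z)
      (lt_add_of_pos_right _ (show 0 < ε / (K + 1) by positivity))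
    refine le_trans (b := K * (l.map fun p => ‖p.1‖ * ∏ i, ‖p.2 i‖).sum) ?_
      ((mul_le_mul_of_nonneg_left h2.le hK).trans ?_)
    · clear h2
      induction l with
      | nil => exact (congrArg norm (map_zero f)).trans_le (by simp)
      | cons p l ih =>
        refine (congrArg norm (map_add f _ _)).trans_le ((norm_add_le _ _).trans ?_)
        rw [List.map_cons, List.sum_cons, mul_add, f1]
        exact add_le_add (h _ _) ih
    · rw [mul_add, mul_div_assoc']
      refine add_le_add le_rfl ?_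
      rw [div_le_iff₀ (by positivity)]
      nlinarith
  let e := (UniformSpace.Completion.toComplL (𝕜 := ℂ) (E := Ch A X n)).toLinearMap
  have e1 : DenseRange e := UniformSpace.Completion.denseRange_coe
  have e2 : ∀ z, ‖f z‖ ≤ K * ‖e z‖ := fun z => by
    rw [show ‖e z‖ = ‖z‖ from UniformSpace.Completion.norm_coe z]; exact f2 z
  exact ⟨f.extendOfNorm e, LinearMap.opNorm_extendOfNorm_le e1 hK e2, fun x a =>
    (LinearMap.extendOfNorm_eq e1 ⟨K, e2⟩ _).trans (f1 x a)⟩

lemma exL' [CompleteSpace G] (g : X → MultilinearMap ℂ (fun _ : Fin n => A) G) {K : ℝ}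
    (hK : 0 ≤ K) (h1 : ∀ x y a, g (x + y) a = g x a + g y a)
    (h2 : ∀ (c : ℂ) x a, g (c • x) a = c • g x a) (h : ∀ x a, ‖g x a‖ ≤ K * (‖x‖ * ∏ i, ‖a i‖)) :
    ∃ L : C A X n →L[ℂ] G, ‖L‖ ≤ K ∧ ∀ x a, L (el x a) = g x a :=
  exL ⟨⟨g, fun x y => MultilinearMap.ext (h1 x y)⟩, fun c x => MultilinearMap.ext (h2 c x)⟩ hK h

lemma el_add (x y : X) (a : Fin n → A) : el (x + y) a = el x a + el y a := by
  simp [← elM_apply]

lemma el_smul (c : ℂ) (x : X) (a : Fin n → A) : el (c • x) a = c • el x a := by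
  simp [← elM_apply]

variable [IsScalarTower ℂ A A] [SMulCommClass ℂ A A]

lemma upd [DecidableEq (Fin (n + 1))] (i : Fin n) (a : Fin (n + 1) → A) (j : Fin (n + 1)) :
    ∃ (k : Fin n) (L : A →ₗ[ℂ] A), ∀ v, Fin.contractNth i.castSucc (· * ·) (Function.update a j v) =
      Function.update (Fin.contractNth i.castSucc (· * ·) a) k (L v) := by
  obtain h | h | h | h : j.val < i ∨ j.val = i ∨ j.val = i + 1 ∨ i.val + 1 < j := by omega
  · refine ⟨⟨j, by omega⟩, .id, fun v => funext fun k => ?_⟩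
    simp only [Fin.contractNth, Function.update_apply, Fin.ext_iff, Fin.val_castSucc, Fin.val_succ]
    split_ifs <;> first | rfl | omega
  · refine ⟨i, .mulRight ℂ (a i.succ), fun v => funext fun k => ?_⟩
    simp only [Fin.contractNth, Function.update_apply, Fin.ext_iff, Fin.val_castSucc, Fin.val_succ]
    split_ifs <;> first | rfl | omega | (obtain rfl : k = i := Fin.ext ‹_›; rfl)
  · refine ⟨i, .mulLeft ℂ (a i.castSucc), fun v => funext fun k => ?_⟩
    simp only [Fin.contractNth, Function.update_apply, Fin.ext_iff, Fin.val_castSucc, Fin.val_succ]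
    split_ifs <;> first | rfl | omega | (obtain rfl : k = i := Fin.ext ‹_›; rfl)
  · refine ⟨⟨j - 1, by omega⟩, .id, fun v => funext fun k => ?_⟩
    simp only [Fin.contractNth, Function.update_apply, Fin.ext_iff, Fin.val_castSucc, Fin.val_succ]
    split_ifs <;> first | rfl | omega

omit [NormedSpace ℂ A] [IsScalarTower ℂ A A] [SMulCommClass ℂ A A] in
lemma pc (i : Fin n) (a : Fin (n + 1) → A) :
    ∏ k, ‖Fin.contractNth i.castSucc (· * ·) a k‖ ≤ ∏ k, ‖a k‖ := by
  induction n with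
  | zero => exact i.elim0
  | succ n ih =>
    rw [← Fin.cons_self_tail a]
    refine Fin.cases ?_ (fun i => ?_) i
    · simp only [cn_zero, Fin.prod_univ_succ, Fin.cons_zero, Fin.cons_succ, ← mul_assoc]
      exact mul_le_mul_of_nonneg_right (norm_mul_le _ _) (by positivity)
    · rw [cn_succ, Fin.prod_univ_succ, Fin.prod_univ_succ (n := n + 1)]
      exact mul_le_mul_of_nonneg_left (ih i _) (norm_nonneg _)

lemma exD (l r : A →L[ℂ] X →L[ℂ] X) : ∃ d, IsBd l r d := by
  have h1 : ∀ n, ∃ L : C A X (n + 1) →L[ℂ] C A X n, ∀ x a,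
      L (el x a) = el (r (a 0) x) (Fin.tail a) := fun n => by
    obtain ⟨L, -, h⟩ := exL' (n := n + 1) (fun x => LinearMap.uncurryLeft (M := fun _ => A)
      (elM (n := n) ∘ₗ (r.flip x).toLinearMap)) (norm_nonneg r) (by simp) (by simp) fun x a => by
        refine (norm_el _ _).trans ?_
        rw [Fin.prod_univ_succ, ← mul_assoc, ← mul_assoc, mul_right_comm ‖r‖]
        exact mul_le_mul_of_nonneg_right (r.le_opNorm₂ _ _) (by positivity)
    exact ⟨L, h⟩
  have h2 : ∀ n (i : Fin n), ∃ L : C A X (n + 1) →L[ℂ] C A X n, ∀ x a,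
      L (el x a) = el x (Fin.contractNth i.castSucc (· * ·) a) := fun n i => by
    obtain ⟨L, -, h⟩ := exL' (A := A) (G := C A X n) (n := n + 1) (fun x : X =>
      ⟨fun a => elM x (Fin.contractNth i.castSucc (· * ·) a),
        fun a j u v => by obtain ⟨k, L, h⟩ := upd i a j; simp [h],
        fun a j c v => by obtain ⟨k, L, h⟩ := upd i a j; simp [h]⟩) zero_le_one (by simp) (by simp)
      fun x a => (norm_el _ _).trans (by
        rw [one_mul]; exact mul_le_mul_of_nonneg_left (pc i a) (norm_nonneg _))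
    exact ⟨L, h⟩
  have h3 : ∀ n, ∃ L : C A X (n + 1) →L[ℂ] C A X n, ∀ x a,
      L (el x a) = el (l (a (Fin.last n)) x) (Fin.init a) := fun n => by
    obtain ⟨L, -, h⟩ := exL' (A := A) (G := C A X n) (n := n + 1) 
      (fun x : X => MultilinearMap.uncurryRight (M := fun _ => A)
      ⟨fun a => ⟨⟨fun v => elM (l v x) a, by simp⟩, by simp⟩, fun a j u v => by ext; simp,
        fun a j u v => by ext; simp⟩) (norm_nonneg l) (by simp) (by simp) fun x a => by
        refine (norm_el _ _).trans ?_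
        rw [Fin.prod_univ_castSucc, mul_comm (∏ _, _) ‖a _‖, ← mul_assoc, ← mul_assoc,
          mul_right_comm ‖l‖]
        exact mul_le_mul_of_nonneg_right (l.le_opNorm₂ _ _) (by positivity)
    exact ⟨L, h⟩
  choose d1 h1 using h1
  choose d2 h2 using h2
  choose d3 h3 using h3
  exact ⟨fun n => d1 n + ∑ i : Fin n, (-1 : ℤ) ^ (i.val + 1) • d2 n i + (-1 : ℤ) ^ (n + 1) • d3 n,
    fun n x a => by simp [h1, h2, h3]⟩

end Pool.Agent.H.MP_067393_an
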