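import Pool.Agent.H.MP_067393_an.A

set_option autoImplicit false

namespace Pool.Agent.H.MP_067393_an

open scoped TensorProduct
open Filter Topology Finset

universe u

lemma iter {E F : Type*} [NormedAddCommGroup E] [NormedSpace ℂ E] [NormedAddCommGroup F]
    [NormedSpace ℂ F] [CompleteSpace E] (T : E →L[ℂ] F) (Z : Submodule ℂ F) (hZ : ∀ w, T w ∈ Z)
    {K : ℝ} (hK : 0 ≤ K) (h : ∀ u ∈ Z, ∃ w, ‖w‖ ≤ K * ‖u‖ ∧ ‖u - T w‖ ≤ ‖u‖ / 2) :
    ∀ u ∈ Z, ∃ w, T w = u := by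
  intro u hu
  choose! f f1 f2 using h
  let v : ℕ → F := fun n => (fun y => y - T (f y))^[n] u
  have v1 : ∀ n, v (n + 1) = v n - T (f (v n)) := fun n => Function.iterate_succ_apply' _ _ _
  have v2 : ∀ n, v n ∈ Z ∧ ‖v n‖ ≤ ‖u‖ * (1 / 2) ^ n := fun n => by
    induction n with
    | zero => exact ⟨hu, by simp [v]⟩
    | succ n ih =>
      rw [v1, pow_succ]
      exact ⟨Z.sub_mem ih.1 (hZ _), (f2 _ ih.1).trans (by linarith [ih.2])⟩
  have s : Summable fun n => f (v n) := .of_norm_bounded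
    ((summable_geometric_two.mul_left ‖u‖).mul_left K) fun n =>
      (f1 _ (v2 n).1).trans (mul_le_mul_of_nonneg_left (v2 n).2 hK)
  refine ⟨_, tendsto_nhds_unique (T.hasSum s.hasSum).tendsto_sum_nat ?_⟩
  have e : ∀ n, ∑ i ∈ range n, T (f (v i)) = u - v n := fun n => by
    induction n with
    | zero => simp [v]
    | succ n ih => rw [sum_range_succ, ih, v1]; abel
  simp only [e]
  simpa using (squeeze_zero_norm (fun n => (v2 n).2) (by
    simpa using (tendsto_pow_atTop_nhds_zero_of_lt_one (r := (1 / 2 : ℝ)) (by norm_num)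
      (by norm_num)).const_mul ‖u‖)).const_sub u

variable {A : Type} {X : Type u} [NonUnitalNormedRing A] [NormedSpace ℂ A]
  [NormedAddCommGroup X] [NormedSpace ℂ X] {n : ℕ}
  {G : Type*} [NormedAddCommGroup G] [NormedSpace ℂ G]

lemma tendP {ι : Type*} {F : Filter ι} {P : ι → A} (hP : ∀ a, Tendsto (fun i => P i * a) F (𝓝 a))
    (PP : ∀ i, P i * P i = P i) {T : ι → C A X n →L[ℂ] G} {K : ℝ} (hK : ∀ i, ‖T i‖ ≤ K)
    (h : ∀ᶠ i in F, ∀ x a, (∀ j, P i * a j = a j) → T i (el x a) = 0) (u : C A X n) :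
    Tendsto (fun i => T i u) F (𝓝 0) := by
  refine tend hK (fun x a => ?_) u
  have t := (((elM x).continuous_of_bound ‖x‖ (norm_el x)).tendsto a).comp
    (tendsto_pi_nhds.2 fun j => hP (a j))
  refine squeeze_zero_norm' (h.mono fun i hi => ?_) (by
    simpa using (tendsto_iff_norm_sub_tendsto_zero.1 t).const_mul K)
  rw [← sub_zero (T i _), ← hi x (fun j => P i * a j) fun j => by rw [← mul_assoc, PP], ← map_sub,
    ← norm_neg, ← map_neg, neg_sub]
  exact (T i).le_of_opNorm_le (hK i) _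

lemma norm_el1 {y : X} {v : A} (w : Fin n → A) {p q : ℝ} (h1 : ‖y‖ ≤ p) (h2 : ‖v‖ ≤ q) :
    ‖el y (Fin.cons v w : Fin (n + 1) → A)‖ ≤ p * q * ∏ i, ‖w i‖ := by
  refine (norm_el _ _).trans ?_
  have := (norm_nonneg _).trans h1
  simp only [Fin.prod_univ_succ, Fin.cons_zero, Fin.cons_succ, ← mul_assoc]
  gcongr

lemma norm_el2 {y : X} {v v' : A} (w : Fin n → A) {p q t : ℝ} (h1 : ‖y‖ ≤ p) (h2 : ‖v‖ ≤ q)
    (h3 : ‖v'‖ ≤ t) :
    ‖el y (Fin.cons v (Fin.cons v' w) : Fin (n + 2) → A)‖ ≤ p * q * t * ∏ i, ‖w i‖ := by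
  refine (norm_el1 _ h1 h2).trans ?_
  have := (norm_nonneg _).trans h1
  have := (norm_nonneg _).trans h2
  simp only [Fin.prod_univ_succ, Fin.cons_zero, Fin.cons_succ, ← mul_assoc]
  gcongr

lemma exS [CompleteSpace G] (g : X →ₗ[ℂ] A →ₗ[ℂ] MultilinearMap ℂ (fun _ : Fin n => A) G) {K : ℝ}
    (hK : 0 ≤ K) (h : ∀ x a w, ‖g x a w‖ ≤ K * (‖x‖ * ‖a‖ * ∏ i, ‖w i‖)) :
    ∃ L : C A X (n + 1) →L[ℂ] G, ‖L‖ ≤ K ∧ ∀ x a w, L (el x (Fin.cons a w)) = g x a w := by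
  obtain ⟨L, h1, h2⟩ := exL' (n := n + 1) (fun x => LinearMap.uncurryLeft (M := fun _ => A) (g x))
    hK (by simp) (by simp) fun x a => by
      rw [Fin.prod_univ_succ, ← mul_assoc ‖x‖]
      exact h _ _ _
  exact ⟨L, h1, fun x a w => by simp [h2]⟩

/-- curried elementary tensors -/
noncomputable def e1 : X →ₗ[ℂ] A →ₗ[ℂ] MultilinearMap ℂ (fun _ : Fin n => A) (C A X (n + 1)) :=
  (multilinearCurryLeftEquiv ℂ (fun _ : Fin (n + 1) => A) _).toLinearMap ∘ₗ elM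

lemma e1_apply (x : X) (v : A) (w : Fin n → A) : e1 x v w = el x (Fin.cons v w) := rfl

/-- twice curried elementary tensors -/
noncomputable def e2 :
    X →ₗ[ℂ] A →ₗ[ℂ] A →ₗ[ℂ] MultilinearMap ℂ (fun _ : Fin n => A) (C A X (n + 2)) :=
  e1.compr₂ (multilinearCurryLeftEquiv ℂ (fun _ : Fin (n + 1) => A) _).toLinearMap

lemma e2_apply (x : X) (v v' : A) (w : Fin n → A) :
    e2 x v v' w = el x (Fin.cons v (Fin.cons v' w)) := rfl

variable [IsScalarTower ℂ A A] [SMulCommClass ℂ A A] {l r : A →L[ℂ] X →L[ℂ] X}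

omit [IsScalarTower ℂ A A] [SMulCommClass ℂ A A] in
lemma nr {R : ℝ} (hR : ‖r‖ ≤ R) {a : A} {x : X} {p q : ℝ} (ha : ‖a‖ ≤ p) (hx : ‖x‖ ≤ q) :
    ‖r a x‖ ≤ R * p * q := by
  have := r.opNorm_nonneg.trans hR
  have := (norm_nonneg _).trans ha
  refine (r.le_opNorm₂ _ _).trans ?_
  gcongr

omit [IsScalarTower ℂ A A] in
lemma exs (r : A →L[ℂ] X →L[ℂ] X) (n : ℕ) {P m m' : A} (hP : ‖P‖ ≤ 1) (hm : ‖m‖ ≤ 1)
    (hm' : ‖m'‖ ≤ 1) : ∃ s : C A X (n + 1) →L[ℂ] C A X (n + 2), ‖s‖ ≤ 5 * (1 + ‖r‖) ^ 2 ∧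
      ∀ x a w, s (el x (Fin.cons a w)) = -el x (Fin.cons m (Fin.cons (m' * a) w)) +
        el (r a x) (Fin.cons m (Fin.cons m' w)) + el (r a x) (Fin.cons P (Fin.cons P w)) +
        el (r m x) (Fin.cons (m' * a) (Fin.cons P w)) -
        el (r m (r a x)) (Fin.cons m' (Fin.cons P w)) := by
  obtain ⟨s, h1, h2⟩ := exS (G := C A X (n + 2)) (LinearMap.mk₂ ℂ (fun x a => -e2 x m (m' * a) +
    e2 (r a x) m m' + e2 (r a x) P P + e2 (r m x) (m' * a) P - e2 (r m (r a x)) m' P)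
    (by intros; simp; abel) (by intros; simp [smul_sub]) (by intros; simp [mul_add]; abel)
    (by intros; simp [smul_sub, mul_smul_comm])) (K := 5 * (1 + ‖r‖) ^ 2) (by positivity) fun x a w => by
      have k : ‖m' * a‖ ≤ ‖a‖ := (norm_mul_le _ _).trans (mul_le_of_le_one_left (norm_nonneg _) hm')
      have k1 := norm_el2 w (le_refl ‖x‖) hm k
      have k2 := norm_el2 w (nr le_rfl (le_refl ‖a‖) (le_refl ‖x‖)) hm hm' (y := r a x)
      have k3 := norm_el2 w (nr le_rfl (le_refl ‖a‖) (le_refl ‖x‖)) hP hP (y := r a x)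
      have k4 := norm_el2 w (nr le_rfl hm (le_refl ‖x‖)) k hP (y := r m x)
      have k5 := norm_el2 w (nr le_rfl hm (nr le_rfl (le_refl ‖a‖) (le_refl ‖x‖))) hm' hP
        (y := r m (r a x))
      refine (norm_sub_le_of_le (norm_add_le_of_le (norm_add_le_of_le (norm_add_le_of_le
        ((norm_neg _).trans_le k1) k2) k3) k4) k5).trans ?_
      have : 0 ≤ ‖x‖ * ‖a‖ * ∏ i, ‖w i‖ := by positivity
      nlinarith [mul_nonneg this (norm_nonneg r), mul_nonneg (mul_nonneg this (norm_nonneg r))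
        (norm_nonneg r)]
  exact ⟨s, h1, h2⟩

variable {d : ∀ n, C A X (n + 1) →L[ℂ] C A X n}

omit [IsScalarTower ℂ A A] [SMulCommClass ℂ A A] in
lemma dD (hd : IsBd l r d) (n : ℕ) (x : X) (a : Fin (n + 1) → A) :
    d n (el x a) = D (l · ·) (r · ·) n el x a := hd n x a

omit [IsScalarTower ℂ A A] [SMulCommClass ℂ A A] in
lemma mapD {m : ℕ} (T : C A X m →L[ℂ] G) (x : X) (a : Fin (m + 1) → A) :
    T (D (l · ·) (r · ·) m el x a) = D (l · ·) (r · ·) m (fun y u => T (el y u)) x a := by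
  simp [D]

omit [IsScalarTower ℂ A A] [SMulCommClass ℂ A A] in
lemma dd (hb : IsBimod l r) (hd : IsBd l r d) (n : ℕ) (u : C A X (n + 2)) :
    d n (d (n + 1) u) = 0 :=
  ext (S := d n ∘L d (n + 1)) (T := 0) (fun x a => by
    rw [ContinuousLinearMap.comp_apply, dD hd, mapD]
    simp only [dD hd]
    exact DD.{u, 0} n _ _ hb.1 hb.2.1 hb.2.2 el x a) u

omit [IsScalarTower ℂ A A] [SMulCommClass ℂ A A] in
lemma hom (hb : IsBimod l r) (hd : IsBd l r d) {P m m' : A} (PP : P * P = P) (mm : m * m' = P)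
    (mp : m' * P = m') {s : ∀ n, C A X (n + 1) →L[ℂ] C A X (n + 2)}
    (hs : ∀ n x a w, s n (el x (Fin.cons a w)) = -el x (Fin.cons m (Fin.cons (m' * a) w)) +
        el (r a x) (Fin.cons m (Fin.cons m' w)) + el (r a x) (Fin.cons P (Fin.cons P w)) +
        el (r m x) (Fin.cons (m' * a) (Fin.cons P w)) -
        el (r m (r a x)) (Fin.cons m' (Fin.cons P w))) (n : ℕ) (x : X) {a b : A}
    (w : Fin n → A) (ha : P * a = a) (hb' : P * b = b) :
    d (n + 2) (s (n + 1) (el x (Fin.cons a (Fin.cons b w)))) +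
      s n (d (n + 1) (el x (Fin.cons a (Fin.cons b w)))) = el x (Fin.cons a (Fin.cons b w)) +
      (e2 (r (a * m) x) (m' * P) b w - e2 (r m x) (m' * (a * P)) b w) +
      (e2 (r (a * m) x) (m' * b) P w - e2 (r m x) (m' * (a * b)) P w) := by
  have k : m * (m' * a) = a := by rw [← mul_assoc, mm, ha]
  rw [hs, dD hd, mapD, D_succ]
  simp only [map_add, map_sub, map_neg, dD hd, D_succ _ _ (n + 1), D_succ _ _ n]
  simp only [D, hs, Fin.cons_zero, Fin.tail_cons, e2_apply, hb.2.2, ← hb.2.1, smul_add, smul_sub,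
    smul_neg, sum_add_distrib, sum_sub_distrib, sum_neg_distrib, mul_assoc, k, mm, PP, mp, hb']
  abel

end Pool.Agent.H.MP_067393_an
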