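import Pool.Agent.H.MP_067393_an.B

set_option autoImplicit false

namespace Pool.Agent.H.MP_067393_an

open scoped TensorProduct
open Filter Topology Finset

universe u

variable {A : Type} {X : Type u} [NonUnitalNormedRing A] [NormedSpace ℂ A]
  [NormedAddCommGroup X] [NormedSpace ℂ X] {l r : A →L[ℂ] X →L[ℂ] X}
  {d : ∀ n, C A X (n + 1) →L[ℂ] C A X n}

/-- approximate diagonals on one side, unbounded approximate units on the other side -/
structure Nice {ι : Type} (F : Filter ι) (P : ι → A) (Γ : ι → Type) [∀ i, Fintype (Γ i)]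
    (m m' : ∀ i, Γ i → A) : Prop where
  ne : ∀ i, Nonempty (Γ i)
  tP : ∀ a, Tendsto (fun i => P i * a) F (𝓝 a)
  nP : ∀ i, ‖P i‖ ≤ 1
  PP : ∀ i, P i * P i = P i
  nm : ∀ i g, ‖m i g‖ ≤ 1
  nm' : ∀ i g, ‖m' i g‖ ≤ 1
  mm : ∀ i g, m i g * m' i g = P i
  mp : ∀ i g, m' i g * P i = m' i g
  f2 : ∀ i a c, P i * a = a → P i * c = c →
    ∑ g, (a * m i g) ⊗ₜ[ℂ] (m' i g * c) = ∑ g, m i g ⊗ₜ[ℂ] (m' i g * (a * c))
  ra : ∃ (R : ℕ → A →L[ℂ] A) (c : ℕ → ℕ → A), (∀ n, ‖R n‖ ≤ 1) ∧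
    (∀ a, Tendsto (fun n => R n a) atTop (𝓝 a)) ∧ (∀ n, ∃ M, ∀ K, ‖c n K‖ ≤ M) ∧
    (∀ n a, Tendsto (fun K => a * c n K) atTop (𝓝 (R n a))) ∧ ∀ n K, ∀ᶠ i in F, P i * c n K = c n K

variable {ι : Type} {F : Filter ι} {P : ι → A} {Γ : ι → Type} [∀ i, Fintype (Γ i)]
  {m m' : ∀ i, Γ i → A}

lemma Nice.f3 (N : Nice F P Γ m m') {H : Type*} [AddCommGroup H] [Module ℂ H]
    (β : A →ₗ[ℂ] A →ₗ[ℂ] H) (i : ι) {a c : A} (ha : P i * a = a) (hc : P i * c = c) :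
    ∑ g, (β (a * m i g) (m' i g * c) - β (m i g) (m' i g * (a * c))) = 0 := by
  simpa [sub_eq_zero] using congrArg (TensorProduct.lift β) (N.f2 i a c ha hc)

lemma avg {α H : Type*} [Fintype α] [Nonempty α] [AddCommGroup H] [Module ℂ H] (v : H) :
    (Fintype.card α : ℂ)⁻¹ • ∑ _g : α, v = v := by
  rw [sum_const, card_univ, ← Nat.cast_smul_eq_nsmul ℂ, inv_smul_smul₀ (by simp)]

lemma navg {α H : Type*} [Fintype α] [Nonempty α] [SeminormedAddCommGroup H] [NormedSpace ℂ H]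
    {v : α → H} {K : ℝ} (h : ∀ g, ‖v g‖ ≤ K) : ‖(Fintype.card α : ℂ)⁻¹ • ∑ g, v g‖ ≤ K := by
  rw [norm_smul, norm_inv, Complex.norm_natCast, inv_mul_le_iff₀ (by simp [Fintype.card_pos])]
  exact (norm_sum_le _ _).trans ((sum_le_sum fun g _ => h g).trans (by simp))

lemma ncomp {E₁ E₂ E₃ : Type*} [NormedAddCommGroup E₁] [NormedSpace ℂ E₁] [NormedAddCommGroup E₂]
    [NormedSpace ℂ E₂] [NormedAddCommGroup E₃] [NormedSpace ℂ E₃] {S : E₂ →L[ℂ] E₃}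
    {T : E₁ →L[ℂ] E₂} {p q : ℝ} (h1 : ‖S‖ ≤ p) (h2 : ‖T‖ ≤ q) : ‖S ∘L T‖ ≤ p * q :=
  (S.opNorm_comp_le T).trans (mul_le_mul h1 h2 (norm_nonneg _) ((norm_nonneg _).trans h1))

variable [SMulCommClass ℂ A A]

lemma Nice.exS (N : Nice F P Γ m m') (hb : IsBimod l r) (hd : IsBd l r d) :
    ∃ (s : ι → ∀ n, C A X (n + 1) →L[ℂ] C A X (n + 2)) (K : ℝ), 0 ≤ K ∧ (∀ i n, ‖s i n‖ ≤ K) ∧
      ∀ n u, Tendsto (fun i => d (n + 2) (s i (n + 1) u) + s i n (d (n + 1) u) - u) F (𝓝 0) := by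
  choose s s1 s2 using fun i g n => exs r n (N.nP i) (N.nm i g) (N.nm' i g)
  have := N.ne
  obtain ⟨S, b, hS⟩ : ∃ S : ι → ∀ n, C A X (n + 1) →L[ℂ] C A X (n + 2),
      (∀ i n, ‖S i n‖ ≤ 5 * (1 + ‖r‖) ^ 2) ∧
      ∀ i n u, S i n u = (Fintype.card (Γ i) : ℂ)⁻¹ • ∑ g, s i g n u :=
    ⟨fun i n => (Fintype.card (Γ i) : ℂ)⁻¹ • ∑ g, s i g n, fun i n => navg fun g => s1 i g n,
      fun i n u => by simp⟩
  refine ⟨S, _, by positivity, b, fun n u => ?_⟩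
  let T : ι → C A X (n + 2) →L[ℂ] C A X (n + 2) := fun i =>
    d (n + 2) ∘L S i (n + 1) + S i n ∘L d (n + 1) - .id ℂ _
  have T1 : ∀ i u, T i u = d (n + 2) (S i (n + 1) u) + S i n (d (n + 1) u) - u := fun _ _ => rfl
  have T2 : ∀ i, ‖T i‖ ≤ _ := fun i => norm_sub_le_of_le (norm_add_le_of_le
    (ncomp le_rfl (b i _)) (ncomp (b i _) le_rfl)) ContinuousLinearMap.norm_id_le
  simp only [← T1]
  refine tendP N.tP N.PP T2 (.of_forall fun i x a ha => ?_) u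
  rw [← Fin.cons_self_tail a, ← Fin.cons_self_tail (Fin.tail a)]
  have h0 := ha 0
  have h1 : P i * Fin.tail a 0 = Fin.tail a 0 := ha (Fin.succ 0)
  generalize a 0 = a0, Fin.tail a 0 = a1, Fin.tail (Fin.tail a) = w at *
  have k1 := N.f3 (LinearMap.mk₂ ℂ (fun u v => e2 (r u x) v a1 w) (by simp) (by simp) (by simp)
    (by simp)) i h0 (N.PP i)
  have k2 := N.f3 (LinearMap.mk₂ ℂ (fun u v => e2 (r u x) v (P i) w) (by simp) (by simp) (by simp)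
    (by simp)) i h0 h1
  simp only [LinearMap.mk₂_apply] at k1 k2
  rw [T1, hS, hS, map_smul, map_sum, ← smul_add, ← sum_add_distrib, sum_congr rfl fun g _ =>
    hom hb hd (N.PP i) (N.mm i g) (N.mp i g) (s2 i g) n x w h0 h1,
    sum_add_distrib, sum_add_distrib, k2, k1, add_zero, add_zero, avg, sub_self]

variable [F.NeBot]

lemma Nice.cl (N : Nice F P Γ m m') (hb : IsBimod l r) (hd : IsBd l r d) (n : ℕ) :
    ∀ u ∈ (d (n + 1)).range.topologicalClosure, ∃ w, d (n + 1) w = u := by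
  obtain ⟨s, K, K0, hK, hs⟩ := N.exS hb hd
  refine iter _ _ (fun w => Submodule.le_topologicalClosure _ ⟨w, rfl⟩) K0 fun u hu => ?_
  let T : ι → C A X (n + 1) →L[ℂ] C A X (n + 1) := fun i => d (n + 1) ∘L s i n - .id ℂ _
  have T2 : ∀ i, ‖T i‖ ≤ _ := fun i => norm_sub_le_of_le
    (ncomp le_rfl (hK i _)) ContinuousLinearMap.norm_id_le
  have t : Tendsto (fun i => T i u) F (𝓝 0) := by
    refine closure_minimal (t := {u | Tendsto (fun i => T i u) F (𝓝 0)}) ?_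
      ((LipschitzWith.uniformEquicontinuous (fun i => T i) _ fun i =>
      (T i).lipschitz.weaken ((Real.le_toNNReal_iff_coe_le ((norm_nonneg _).trans (T2 i))).2
      (T2 i))).equicontinuous.isClosed_setOfPred_tendsto continuous_const) hu
    rintro _ ⟨w, rfl⟩
    simpa [Function.comp_def, dd hb hd, T] using ((d (n + 1)).continuous.tendsto 0).comp (hs n w)
  rcases eq_or_ne u 0 with rfl | h
  · exact ⟨0, by simp, by simp⟩
  obtain ⟨i, hi⟩ := (t.norm.eventually (gt_mem_nhds (a := ‖u‖ / 2) (by simpa using h))).exists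
  exact ⟨s i n u, (s i n).le_of_opNorm_le (hK i n) u, by rw [norm_sub_rev]; exact hi.le⟩

lemma Nice.hi (N : Nice F P Γ m m') (hb : IsBimod l r) (hd : IsBd l r d) (n : ℕ)
    (u : C A X (n + 2)) (hu : d (n + 1) u = 0) : ∃ w, d (n + 2) w = u := by
  obtain ⟨s, K, K0, hK, hs⟩ := N.exS hb hd
  refine N.cl hb hd (n + 1) u (mem_closure_of_tendsto (b := F)
    (f := fun i => d (n + 2) (s i (n + 1) u)) ?_ (.of_forall fun i => ⟨_, rfl⟩))
  simpa [hu] using (hs n u).add_const u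

end Pool.Agent.H.MP_067393_an
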