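import Pool.Agent.H.MP_067393_an.C

set_option autoImplicit false

namespace Pool.Agent.H.MP_067393_an

open scoped TensorProduct
open Filter Topology Finset

universe u

variable {A : Type} {X : Type u} [NonUnitalNormedRing A] [NormedSpace ℂ A]
  [NormedAddCommGroup X] [NormedSpace ℂ X] {l r : A →L[ℂ] X →L[ℂ] X}
  {d : ∀ n, C A X (n + 1) →L[ℂ] C A X n}

variable {G : Type*} [NormedAddCommGroup G] [NormedSpace ℂ G] [CompleteSpace G]

lemma ex1 (g : X →ₗ[ℂ] A →ₗ[ℂ] G) {K : ℝ} (hK : 0 ≤ K) (h : ∀ x a, ‖g x a‖ ≤ K * (‖x‖ * ‖a‖)) :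
    ∃ L : C A X 1 →L[ℂ] G, ‖L‖ ≤ K ∧ ∀ x a w, L (el x (Fin.cons a w)) = g x a :=
  exS (n := 0) (g.compr₂ (MultilinearMap.constLinearEquivOfIsEmpty ℂ ℂ _ G).toLinearMap) hK
    fun x a w => by simpa using h x a

lemma ex0 (g : X →ₗ[ℂ] G) {K : ℝ} (hK : 0 ≤ K) (h : ∀ x, ‖g x‖ ≤ K * ‖x‖) :
    ∃ L : C A X 0 →L[ℂ] G, ‖L‖ ≤ K ∧ ∀ x w, L (el x w) = g x :=
  exL ((MultilinearMap.constLinearEquivOfIsEmpty ℂ ℂ _ G).toLinearMap ∘ₗ g) hK
    fun x w => by simpa using h x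

lemma exρ (R : A →L[ℂ] A) : ∃ L : C A X 1 →L[ℂ] C A X 1, ‖L‖ ≤ ‖R‖ ∧
    ∀ x a w, L (el x (Fin.cons a w)) = e1 x (R a) ![] :=
  ex1 (LinearMap.mk₂ ℂ (fun x a => e1 x (R a) ![]) (by simp) (by simp) (by simp) (by simp))
    (norm_nonneg R) fun x a => (norm_el1 _ le_rfl (R.le_opNorm a)).trans_eq (by simp; ring)

variable {ι : Type} {F : Filter ι} {P : ι → A} {Γ : ι → Type} [∀ i, Fintype (Γ i)]
  {m m' : ∀ i, Γ i → A} [IsScalarTower ℂ A A] [SMulCommClass ℂ A A]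

lemma Nice.ap (N : Nice F P Γ m m') (u : C A X 1) {ε : ℝ} (hε : 0 < ε) :
    ∃ (c : A) (L : C A X 1 →L[ℂ] C A X 1), (∀ᶠ i in F, P i * c = c) ∧
      (∀ x a w, L (el x (Fin.cons a w)) = e1 x (a * c) ![]) ∧ ‖u - L u‖ < ε := by
  obtain ⟨R, c, h1, h2, h3, h4, h5⟩ := N.ra
  choose ρ r1 r2 using exρ (A := A) (X := X)
  have t : ∀ {f : ℕ → A} {b : A} (x : X), Tendsto f atTop (𝓝 b) →
      Tendsto (fun n => e1 x b ![] - e1 x (f n) ![]) atTop (𝓝 0) := fun {f b} x h =>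
    squeeze_zero_norm (a := fun n => ‖x‖ * ‖b - f n‖) (fun n => by
      rw [show e1 x b ![] - e1 x (f n) ![] = e1 x (b - f n) ![] by rw [(e1 x).map_sub]; rfl]
      exact (norm_el1 _ le_rfl le_rfl).trans_eq (by simp)) (by simpa using (h.const_sub b).norm.const_mul ‖x‖)
  let T : ℕ → C A X 1 →L[ℂ] C A X 1 := fun n => .id ℂ _ - ρ (R n)
  have T1 : ∀ n u, T n u = u - ρ (R n) u := fun _ _ => rfl
  have T2 : ∀ n, ‖T n‖ ≤ 1 + 1 := fun n => norm_sub_le_of_le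
    ContinuousLinearMap.norm_id_le ((r1 _).trans (h1 n))
  have t1 := tend (F := atTop) T2 (fun x a => by
    rw [← Fin.cons_self_tail a, Subsingleton.elim (Fin.tail a) ![]]
    simp only [T1, r2]
    exact t x (h2 (a 0))) u
  obtain ⟨n, hn⟩ := (t1.norm.eventually (gt_mem_nhds (a := ε / 2) (by simpa))).exists
  obtain ⟨M, hM⟩ := h3 n
  let μ : A → A →L[ℂ] A := fun c => (ContinuousLinearMap.mul ℂ A).flip c
  have μ1 : ∀ c a, μ c a = a * c := fun _ _ => rfl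
  have μ2 : ∀ K, ‖μ (c n K)‖ ≤ M := fun K =>
    (μ _).opNorm_le_bound ((norm_nonneg _).trans (hM K)) fun a =>
      (norm_mul_le _ _).trans (by rw [mul_comm]; gcongr; exact hM K)
  let S : ℕ → C A X 1 →L[ℂ] C A X 1 := fun K => ρ (R n) - ρ (μ (c n K))
  have S1 : ∀ K u, S K u = ρ (R n) u - ρ (μ (c n K)) u := fun _ _ => rfl
  have S2 : ∀ K, ‖S K‖ ≤ 1 + M := fun K =>
    norm_sub_le_of_le ((r1 _).trans (h1 n)) ((r1 _).trans (μ2 K))
  have t2 := tend (F := atTop) S2 (fun x a => by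
    rw [← Fin.cons_self_tail a]
    simp only [S1, r2, μ1]
    exact t x (h4 n (a 0))) u
  obtain ⟨K, hK⟩ := (t2.norm.eventually (gt_mem_nhds (a := ε / 2) (by simpa))).exists
  refine ⟨c n K, _, h5 n K, r2 (μ (c n K)), ?_⟩
  rw [T1] at hn
  rw [S1] at hK
  linarith [norm_sub_le_norm_sub_add_norm_sub u (ρ (R n) u) (ρ (μ (c n K)) u)]

lemma Nice.lo [F.NeBot] (N : Nice F P Γ m m') (hb : IsBimod l r) (hd : IsBd l r d)
    (q : C A X 1 →L[ℂ] G) (hq : ∀ w, q (d 1 w) = 0) (u : C A X 1) (hu : d 0 u = 0) : q u = 0 := by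
  have := N.ne
  obtain ⟨β, hβ⟩ : ∃ β : X →ₗ[ℂ] A →ₗ[ℂ] G, ∀ x a, β x a = q (e1 x a ![]) :=
    ⟨LinearMap.mk₂ ℂ (fun x a => q (e1 x a ![])) (by simp) (by simp) (by simp) (by simp),
      fun _ _ => rfl⟩
  have b1 : ∀ {x a p t}, ‖x‖ ≤ p → ‖a‖ ≤ t → ‖β x a‖ ≤ ‖q‖ * (p * t) := fun h1 h2 => by
    rw [hβ]
    exact q.le_of_opNorm_le_of_le le_rfl ((norm_el1 _ h1 h2).trans_eq (by simp))
  have b2 : ∀ x a c, β (r a x) c - β x (a * c) + β (l c x) a = 0 := fun x a c => by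
    rw [← hq (el x (Fin.cons a (Fin.cons c ![]))), dD hd, D_succ, D_zero]
    simp only [hβ, e1_apply, map_sub, Fin.cons_zero]
    abel
  have d0 : ∀ x a w, d 0 (el x (Fin.cons a w)) = el (r a x) ![] - el (l a x) ![] := fun x a w => by
    rw [dD hd, D_zero]; rfl
  have n1 : ∀ i x, ‖x - l (P i) x‖ ≤ (1 + ‖l‖) * ‖x‖ := fun i x =>
    (norm_sub_le_of_le le_rfl (nr le_rfl (N.nP i) le_rfl)).trans_eq (by ring)
  obtain ⟨γ, hγ⟩ : ∃ γ : ι → X →ₗ[ℂ] A →ₗ[ℂ] G, ∀ i x a, γ i x a =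
      (Fintype.card (Γ i) : ℂ)⁻¹ • ∑ g, β (r (m i g) (x - l (P i) x)) (m' i g * a) :=
    ⟨fun i => (Fintype.card (Γ i) : ℂ)⁻¹ • ∑ g, (β ∘ₗ (r (m i g)).toLinearMap ∘ₗ
      (.id - (l (P i)).toLinearMap)).compl₂ (.mulLeft ℂ (m' i g)), fun _ _ _ => by simp⟩
  have g1 : ∀ i x a, ‖γ i x a‖ ≤ ‖q‖ * ‖r‖ * (1 + ‖l‖) * (‖x‖ * ‖a‖) := fun i x a => by
    rw [hγ]
    exact navg fun g => (b1 (nr le_rfl (N.nm i g) (n1 i x)) ((norm_mul_le _ _).trans
      (mul_le_of_le_one_left (norm_nonneg _) (N.nm' i g)))).trans_eq (by ring)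
  choose J J1 J2 using fun i => ex1 (γ i) (by positivity) (g1 i)
  have exY : ∀ i, ∃ Y : C A X 0 →L[ℂ] G, ‖Y‖ ≤ ‖q‖ * (‖l‖ + ‖r‖ * (1 + ‖l‖) + (1 + ‖l‖)) ∧ ∀ y w,
      Y (el y w) = (Fintype.card (Γ i) : ℂ)⁻¹ • ∑ g, (β (l (m' i g) y) (m i g) +
        β (r (m i g) (y - l (P i) y)) (m' i g) - β (y - l (P i) y) (P i)) := fun i =>
    by
    obtain ⟨f, hf⟩ : ∃ f : X →ₗ[ℂ] G, ∀ y, f y = (Fintype.card (Γ i) : ℂ)⁻¹ • ∑ g,
        (β (l (m' i g) y) (m i g) + β (r (m i g) (y - l (P i) y)) (m' i g) -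
          β (y - l (P i) y) (P i)) :=
      ⟨(Fintype.card (Γ i) : ℂ)⁻¹ • ∑ g, (β.flip (m i g) ∘ₗ (l (m' i g)).toLinearMap +
        β.flip (m' i g) ∘ₗ (r (m i g)).toLinearMap ∘ₗ (.id - (l (P i)).toLinearMap) -
        β.flip (P i) ∘ₗ (.id - (l (P i)).toLinearMap)), fun _ => by simp [smul_sub]⟩
    simp only [← hf]
    refine ex0 f (by positivity) fun y => ?_
    rw [hf]
    exact navg fun g =>
      (norm_sub_le_of_le (norm_add_le_of_le (b1 (nr le_rfl (N.nm' i g) le_rfl) (N.nm i g))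
        (b1 (nr le_rfl (N.nm i g) (n1 i y)) (N.nm' i g))) (b1 (n1 i y) (N.nP i))).trans_eq (by ring)
  choose Y Y1 Y2 using exY
  let T : ι → C A X 1 →L[ℂ] G := fun i => q - J i + Y i ∘L d 0
  have T1 : ∀ i u, T i u = q u - J i u + Y i (d 0 u) := fun _ _ => rfl
  have T2 : ∀ i, ‖T i‖ ≤ _ := fun i => norm_add_le_of_le
    (norm_sub_le_of_le le_rfl (J1 i)) (ncomp (Y1 i) le_rfl)
  have t1 := tendP N.tP N.PP T2 (.of_forall fun i x a ha => by
    have h0 := ha 0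
    rw [← Fin.cons_self_tail a, Subsingleton.elim (Fin.tail a) ![]]
    generalize a 0 = a at *
    have k := N.f3 (β ∘ₗ (r.flip x).toLinearMap) i h0 (N.PP i)
    rw [T1, d0, J2, map_sub, Y2, Y2, hγ, ← e1_apply, ← hβ, ← avg (α := Γ i) (β x a), ← smul_sub,
      ← smul_sub, ← smul_add, ← sum_sub_distrib, ← sum_sub_distrib, ← sum_add_distrib,
      ← smul_zero (Fintype.card (Γ i) : ℂ)⁻¹, ← neg_zero, ← k, ← sum_neg_distrib]
    refine congrArg _ (sum_congr rfl fun g _ => ?_)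
    have k0 : m i g * (m' i g * a) = a := by rw [← mul_assoc, N.mm, h0]
    have k1 := b2 x (m i g) (m' i g * a)
    have k2 := b2 (r a x) (m i g) (m' i g)
    have k3 := b2 (r a x) (P i) (P i)
    have k4 := b2 (r (m i g) x) (m' i g * a) (P i)
    have k5 := b2 (r (m i g) (r a x)) (m' i g) (P i)
    simp only [hb.2.2, ← hb.2.1, ← hb.1, k0, N.mm, N.mp, N.PP, h0, mul_assoc, map_sub, sub_self,
      map_zero, LinearMap.sub_apply, LinearMap.comp_apply, LinearMap.zero_apply,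
      ContinuousLinearMap.coe_coe, ContinuousLinearMap.flip_apply] at k1 k2 k3 k4 k5 ⊢
    linear_combination (norm := abel1) -k1 + k2 + k3 + k4 - k5) u
  refine norm_le_zero_iff.1 (le_of_forall_pos_le_add fun ε hε => ?_)
  obtain ⟨c, L, c1, c2, c3⟩ := N.ap u (show 0 < ε / (‖q‖ * ‖r‖ * (1 + ‖l‖) + 1) by positivity)
  choose Z Z1 Z2 using fun i => ex0 (A := A) ((γ i).flip c) (K := ‖q‖ * ‖r‖ * (1 + ‖l‖) * ‖c‖)
    (by positivity) fun x => (g1 i x c).trans_eq (by ring)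
  let S : ι → C A X 1 →L[ℂ] G := fun i => J i ∘L L - Z i ∘L d 0
  have S1 : ∀ i u, S i u = J i (L u) - Z i (d 0 u) := fun _ _ => rfl
  have S2 : ∀ i, ‖S i‖ ≤ _ := fun i =>
    norm_sub_le_of_le (ncomp (J1 i) le_rfl) (ncomp (Z1 i) le_rfl)
  have t2 := tendP N.tP N.PP S2 (c1.mono fun i hi x a ha => by
    have h0 := ha 0
    rw [← Fin.cons_self_tail a]
    generalize a 0 = a at *
    have k := N.f3 (β ∘ₗ (r.flip (x - l (P i) x)).toLinearMap) i h0 hi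
    rw [S1, d0, c2, e1_apply, J2, map_sub, Z2, Z2, LinearMap.flip_apply, LinearMap.flip_apply, hγ,
      hγ, hγ, ← smul_sub, ← smul_sub, ← sum_sub_distrib, ← sum_sub_distrib,
      ← smul_zero (Fintype.card (Γ i) : ℂ)⁻¹, ← neg_zero, ← k, ← sum_neg_distrib]
    refine congrArg _ (sum_congr rfl fun g _ => ?_)
    simp [hb.2.2, ← hb.2.1, ← hb.1, h0]) u
  refine le_of_tendsto (f := fun i => ‖J i (u - L u)‖) (x := F) ?_ (.of_forall fun i => ?_)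
  · refine Tendsto.congr (fun i => ?_) (by simpa using ((t1.add t2).const_sub (q u)).norm)
    simp only [T1, S1, hu, map_zero, map_sub]
    congr 1
    abel
  · refine ((J i).le_of_opNorm_le_of_le (J1 i) c3.le).trans ?_
    rw [zero_add, mul_div_assoc', div_le_iff₀ (by positivity)]
    linarith

theorem Nice.exact [F.NeBot] (N : Nice F P Γ m m') (hb : IsBimod l r) (hd : IsBd l r d) (n : ℕ) :
    Function.Exact (d (n + 1)) (d n) := fun u => ⟨fun h => by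
  cases n with
  | zero =>
    refine N.cl hb hd 0 u ?_
    have := (d 1).range.isClosed_topologicalClosure
    exact (Submodule.Quotient.mk_eq_zero _).1 (N.lo hb hd (d 1).range.topologicalClosure.mkQL
      (fun w => (Submodule.Quotient.mk_eq_zero _).2 (Submodule.le_topologicalClosure _ ⟨w, rfl⟩))
      u h)
  | succ n => exact N.hi hb hd n u h, fun ⟨w, h⟩ => h ▸ dd hb hd n w⟩

end Pool.Agent.H.MP_067393_an
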