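import Mathlib

set_option autoImplicit false

namespace Pool.Agent.H.MP_067393_an

open scoped TensorProduct
open PiTensorProduct

universe u

variable (A : Type) (X : Type u) [NonUnitalNormedRing A] [NormedSpace ℂ A]
  [NormedAddCommGroup X] [NormedSpace ℂ X] (n : ℕ)

/-- The algebraic tensor product of `X` with `n` copies of `A`. -/
def Ch : Type u := X ⊗[ℂ] TensorPower ℂ n A

noncomputable instance : AddCommGroup (Ch A X n) :=
  (inferInstance : AddCommGroup (X ⊗[ℂ] TensorPower ℂ n A))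

noncomputable instance : Module ℂ (Ch A X n) :=
  (inferInstance : Module ℂ (X ⊗[ℂ] TensorPower ℂ n A))

variable {A X n}

/-- The costs of the representations as finite sums of elementary tensors. -/
def costs (z : X ⊗[ℂ] TensorPower ℂ n A) : Set ℝ := {r | ∃ l : List (X × (Fin n → A)),
  z = (l.map fun p => p.1 ⊗ₜ[ℂ] tprod ℂ p.2).sum ∧ r = (l.map fun p => ‖p.1‖ * ∏ i, ‖p.2 i‖).sum}

theorem costs_add {z w : X ⊗[ℂ] TensorPower ℂ n A} {a b : ℝ} (ha : a ∈ costs z)
    (hb : b ∈ costs w) : a + b ∈ costs (z + w) := by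
  obtain ⟨l, rfl, rfl⟩ := ha
  obtain ⟨m, rfl, rfl⟩ := hb
  exact ⟨l ++ m, by simp, by simp⟩

theorem costs_smul {z : X ⊗[ℂ] TensorPower ℂ n A} {a : ℝ} (c : ℂ) (ha : a ∈ costs z) :
    ‖c‖ * a ∈ costs (c • z) := by
  obtain ⟨l, rfl, rfl⟩ := ha
  refine ⟨l.map fun p => (c • p.1, p.2), ?_, ?_⟩
  · simp [List.smul_sum, Function.comp_def, TensorProduct.smul_tmul']
  · simp [← List.sum_map_mul_left, Function.comp_def, norm_smul, mul_assoc]

theorem costs_nonempty (z : X ⊗[ℂ] TensorPower ℂ n A) : (costs z).Nonempty :=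
  z.induction_on ⟨0, [], rfl, rfl⟩ (fun x y => y.induction_on
    (fun c a => ⟨_, [(c • x, a)], by simp [TensorProduct.smul_tmul], rfl⟩)
    fun _ _ ⟨_, ha⟩ ⟨_, hb⟩ => ⟨_, by rw [TensorProduct.tmul_add]; exact costs_add ha hb⟩)
    fun _ _ ⟨_, ha⟩ ⟨_, hb⟩ => ⟨_, costs_add ha hb⟩

theorem costs_bdd (z : X ⊗[ℂ] TensorPower ℂ n A) : 0 ∈ lowerBounds (costs z) := by
  rintro _ ⟨l, -, rfl⟩
  exact List.sum_nonneg (by simp only [List.forall_mem_map]; intros; positivity)

theorem sInf_smul (c : ℂ) (z : X ⊗[ℂ] TensorPower ℂ n A) :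
    sInf (costs (c • z)) ≤ ‖c‖ * sInf (costs z) := by
  rcases eq_or_ne c 0 with rfl | hc
  · simpa using csInf_le ⟨0, costs_bdd _⟩
      (⟨[], rfl, rfl⟩ : 0 ∈ costs (0 : X ⊗[ℂ] TensorPower ℂ n A))
  · rw [← inv_mul_le_iff₀ (norm_pos_iff.2 hc)]
    exact le_csInf (costs_nonempty z) fun a ha =>
      (inv_mul_le_iff₀ (norm_pos_iff.2 hc)).2 (csInf_le ⟨0, costs_bdd _⟩ (costs_smul c ha))

theorem sInf_neg (z : X ⊗[ℂ] TensorPower ℂ n A) : sInf (costs (-z)) = sInf (costs z) :=
  le_antisymm (by simpa using sInf_smul (-1) z) (by simpa using sInf_smul (-1) (-z))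

/-- The projective norm: the infimum of the costs. -/
noncomputable instance : SeminormedAddCommGroup (Ch A X n) :=
  AddGroupSeminorm.toSeminormedAddCommGroup
    { toFun := fun z => sInf (costs z)
      map_zero' := le_antisymm (csInf_le ⟨0, costs_bdd _⟩ ⟨[], rfl, rfl⟩)
        (le_csInf (costs_nonempty _) (costs_bdd _))
      add_le' := fun z w => sub_le_iff_le_add.1 (le_csInf (costs_nonempty z) fun _ ha =>
        sub_le_comm.1 (le_csInf (costs_nonempty w) fun _ hb =>
          sub_le_iff_le_add'.2 (csInf_le ⟨0, costs_bdd _⟩ (costs_add ha hb))))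
      neg' := sInf_neg }

noncomputable instance : NormedSpace ℂ (Ch A X n) where
  norm_smul_le := sInf_smul

variable (A X n) in
/-- The completed projective tensor product of `X` with `n` copies of `A`. -/
abbrev C : Type u := UniformSpace.Completion (Ch A X n)

/-- The elementary tensors. -/
noncomputable def el (x : X) (a : Fin n → A) : C A X n :=
  ((show Ch A X n from x ⊗ₜ[ℂ] tprod ℂ a : Ch A X n) : C A X n)

end Pool.Agent.H.MP_067393_an
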