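import Pool.Agent.H.MP_067393_an.D

set_option autoImplicit false

namespace Pool.Agent.H.MP_067393_an

open scoped TensorProduct
open Filter Topology Finset

section orth

variable {N : Type} [Fintype N] [DecidableEq N]

lemma col (g : Matrix.orthogonalGroup N ℤ) (t : N) : ∑ s, |g.1 s t| ≤ 1 := by
  have h := congrFun (congrFun g.2.1 t) t
  simp only [Matrix.mul_apply, Matrix.star_apply, star_trivial, Matrix.one_apply_eq] at h
  rw [← h]
  exact sum_le_sum fun s _ => by simpa [sq] using Int.le_self_sq |g.1 s t|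

instance : Finite (Matrix.orthogonalGroup N ℤ) :=
  ((Set.Finite.pi' fun _ : N => Set.Finite.pi' fun _ : N => Set.finite_Icc (-1 : ℤ) 1).subset
    (t := {g | g ∈ Matrix.orthogonalGroup N ℤ}) fun g hg s t => abs_le.1
      ((single_le_sum (f := fun s => |g s t|) (fun _ _ => abs_nonneg _) (mem_univ s)).trans
        (col ⟨g, hg⟩ t))).to_subtype

noncomputable instance : Fintype (Matrix.orthogonalGroup N ℤ) := Fintype.ofFinite _

/-- complex matrix of an integral orthogonal matrix -/
def cm : Matrix.orthogonalGroup N ℤ →* Matrix N N ℂ :=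
  ((Int.castRingHom ℂ).mapMatrix.toMonoidHom).comp (Matrix.orthogonalGroup N ℤ).subtype

lemma dg (M : Matrix N N ℂ) :
    ∑ g, (M * cm g) ⊗ₜ[ℂ] cm g⁻¹ = ∑ g : Matrix.orthogonalGroup N ℤ, cm g ⊗ₜ[ℂ] (cm g⁻¹ * M) := by
  have h : ∀ h : Matrix.orthogonalGroup N ℤ, ∑ g, (cm h * cm g) ⊗ₜ[ℂ] cm g⁻¹ =
      ∑ g : Matrix.orthogonalGroup N ℤ, cm g ⊗ₜ[ℂ] (cm g⁻¹ * cm h) := fun h =>
    Fintype.sum_equiv (Equiv.mulLeft h) _ _ fun g => by simp [← map_mul]
  induction M using Matrix.induction_on' with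
  | h_zero => simp
  | h_add p q hp hq =>
    simp only [add_mul, mul_add, TensorProduct.add_tmul, TensorProduct.tmul_add, sum_add_distrib,
      hp, hq]
  | h_std_basis k i c =>
    have s : Matrix.swap ℤ k i ∈ Matrix.orthogonalGroup N ℤ := by
      rw [Matrix.mem_orthogonalGroup_iff, Matrix.transpose_swap, Matrix.swap_mul_self]
    have d : 1 - 2 • Matrix.single i i 1 ∈ Matrix.orthogonalGroup N ℤ := by
      rw [Matrix.mem_orthogonalGroup_iff]
      simp [mul_sub, sub_mul, two_smul, mul_add, add_mul]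
      abel
    have e : Matrix.single k i c = (c / 2) • (cm ⟨_, s⟩ - cm (⟨_, s⟩ * ⟨_, d⟩)) := by
      have : Matrix.swap ℤ k i - Matrix.swap ℤ k i * (1 - 2 • Matrix.single i i 1) =
          2 • Matrix.single k i 1 := by
        rw [mul_sub, mul_one, sub_sub_cancel, mul_smul_comm, Matrix.swap,
          PEquiv.toMatrix_toPEquiv_mul]
        ext a b
        simp [Matrix.single, Equiv.swap_apply_def]
        grind
      have e : ∀ g : Matrix.orthogonalGroup N ℤ, cm g = (Int.castRingHom ℂ).mapMatrix g.1 :=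
        fun _ => rfl
      rw [e, e, ← map_sub, Submonoid.coe_mul, this]
      ext a b
      simp [Matrix.single]
    simp only [e, smul_mul_assoc, mul_smul_comm, sub_mul, mul_sub, ← TensorProduct.smul_tmul',
      TensorProduct.tmul_smul, TensorProduct.sub_tmul, TensorProduct.tmul_sub, ← smul_sum,
      sum_sub_distrib, h]

lemma dg2 {A : Type} [NonUnitalRing A] [Module ℂ A] [IsScalarTower ℂ A A]
    (φ : Matrix N N ℂ →ₗ[ℂ] A) (hφ : ∀ M M', φ (M * M') = φ M * φ M') {a c : A} {M : Matrix N N ℂ}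
    (ha : a * φ 1 = φ M) (hc : φ 1 * c = c) :
    ∑ g, (a * φ (cm g)) ⊗ₜ[ℂ] (φ (cm g⁻¹) * c) = ∑ g, φ (cm g) ⊗ₜ[ℂ] (φ (cm g⁻¹) * (a * c)) := by
  have h := congrArg (TensorProduct.map φ (LinearMap.mulRight ℂ c ∘ₗ φ)) (dg M)
  simp only [map_sum, TensorProduct.map_tmul, hφ, ← ha, LinearMap.comp_apply,
    LinearMap.mulRight_apply, mul_assoc, hc] at h
  simpa only [← hφ, one_mul] using h

end orth

variable {I : Type} [DecidableEq I] {Z : Type} [NormedAddCommGroup Z] [NormedSpace ℂ Z]

/-- the sequence space -/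
noncomputable abbrev L (I : Type) := lp (fun _ : I => ℂ) 1

/-- unit vectors -/
noncomputable def e (t : I) : L I := lp.single 1 t 1

lemma e_apply (t s : I) : e t s = if s = t then 1 else 0 := by
  simp [e, lp.single_apply, Pi.single_apply]

lemma norm_e (t : I) : ‖e t‖ = 1 := by simp [e, lp.norm_single]

lemma hs (f : L I) : HasSum (fun t => f t • e t) f := by
  simpa [e, ← lp.single_smul] using lp.hasSum_single (by simp) f

omit [DecidableEq I] in
lemma nrm (f : L I) : HasSum (fun t => ‖f t‖) ‖f‖ := by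
  simpa using lp.hasSum_norm (by simp) f

lemma opn (T : L I →L[ℂ] Z) {K : ℝ} (hK : 0 ≤ K) (h : ∀ t, ‖T (e t)‖ ≤ K) : ‖T‖ ≤ K :=
  T.opNorm_le_bound hK fun f => (T.hasSum (hs f)).norm_le_of_bounded ((nrm f).mul_left K) fun t => by
    rw [map_smul, norm_smul, mul_comm]
    exact mul_le_mul_of_nonneg_right (h t) (norm_nonneg _)

lemma oext {S T : L I →L[ℂ] Z} (h : ∀ t, S (e t) = T (e t)) : S = T :=
  sub_eq_zero.1 (norm_le_zero_iff.1 (opn _ le_rfl fun t => by simp [h]))

lemma exO [CompleteSpace Z] (v : I → Z) {K : ℝ} (h : ∀ t, ‖v t‖ ≤ K) :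
    ∃ T : L I →L[ℂ] Z, ∀ t, T (e t) = v t := by
  have b : ∀ (f : L I) t, ‖f t • v t‖ ≤ K * ‖f t‖ := fun f t => by
    rw [norm_smul, mul_comm]
    exact mul_le_mul_of_nonneg_right (h t) (norm_nonneg _)
  have s : ∀ f : L I, Summable fun t => f t • v t := fun f =>
    .of_norm_bounded ((nrm f).summable.mul_left K) (b f)
  refine ⟨LinearMap.mkContinuous ⟨⟨fun f => ∑' t, f t • v t, fun f g => by
    simp [add_smul, (s f).tsum_add (s g)]⟩, fun c f => by
    simp [mul_smul, (s f).tsum_const_smul]⟩ K fun f =>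
    tsum_of_norm_bounded ((nrm f).mul_left K) (b f), fun t => ?_⟩
  simp [e_apply]

/-- matrix units -/
noncomputable def mu (s t : I) : L I →L[ℂ] L I := (lp.evalCLM ℂ _ 1 t).smulRight (e s)

lemma mu_apply (s t : I) (f : L I) : mu s t f = f t • e s := rfl

/-- matrices as operators -/
noncomputable def mo (N : Finset I) : Matrix N N ℂ →ₗ[ℂ] (L I →L[ℂ] L I) where
  toFun M := ∑ s, ∑ t, M s t • mu s.1 t.1
  map_add' M M' := by simp [add_smul, sum_add_distrib]
  map_smul' c M := by simp [smul_sum, mul_smul]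

lemma mo_e (N : Finset I) (M : Matrix N N ℂ) (t : I) :
    mo N M (e t) = if h : t ∈ N then ∑ s, M s ⟨t, h⟩ • e s.1 else 0 := by
  simp only [mo, LinearMap.coe_mk, AddHom.coe_mk, _root_.sum_apply, _root_.smul_apply, mu_apply,
    e_apply]
  split_ifs with h
  · exact sum_congr rfl fun s _ => by
      rw [sum_eq_single ⟨t, h⟩ (fun b _ hb => by simp [Subtype.coe_ne_coe.2 hb]) (by simp)]
      simp
  · exact sum_eq_zero fun s _ => sum_eq_zero fun b _ => by
      simp [show b.1 ≠ t from fun e => h (e ▸ b.2)]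

lemma mo_mul (N : Finset I) (M M' : Matrix N N ℂ) : mo N (M * M') = mo N M * mo N M' :=
  oext fun t => by
    simp only [mul_apply_eq_comp, mo_e]
    split_ifs with h
    · simp only [map_sum, map_smul, mo_e, coe_mem, dif_pos, Matrix.mul_apply, sum_smul, smul_sum,
        smul_smul]
      rw [sum_comm]
      exact sum_congr rfl fun _ _ => sum_congr rfl fun _ _ => by rw [mul_comm]
    · simp

lemma mo_one (N : Finset I) (f : L I) : mo N 1 f = ∑ s ∈ N, f s • e s := by
  simp [mo, mu_apply, Matrix.one_apply, sum_attach N fun s => f s • e s]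

lemma mo_norm (N : Finset I) (g : Matrix.orthogonalGroup N ℤ) : ‖mo N (cm g)‖ ≤ 1 :=
  opn _ zero_le_one fun t => by
    rw [mo_e]
    split_ifs with h
    · refine (norm_sum_le _ _).trans ?_
      simp only [norm_smul, norm_e, mul_one]
      have := col g ⟨t, h⟩
      simp only [cm, MonoidHom.comp_apply, RingHom.toMonoidHom_eq_coe, MonoidHom.coe_coe,
        RingHom.mapMatrix_apply, Matrix.map_apply, eq_intCast, Complex.norm_intCast]
      exact_mod_cast this
    · simp

lemma mo_corner (N : Finset I) {a : L I →L[ℂ] L I} (h : mo N 1 * a = a) :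
    a * mo N 1 = mo N fun s t => a (e t.1) s.1 :=
  oext fun t => by
    rw [mul_apply_eq_comp, mo_one, mo_e]
    simp only [e_apply, ite_smul, one_smul, zero_smul, sum_ite_eq']
    split_ifs with ht
    · rw [sum_coe_sort N fun s => a (e t) s • e s, ← mo_one, ← mul_apply_eq_comp, h]
    · simp

end Pool.Agent.H.MP_067393_an
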