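import Pool.Agent.H.MP_067393_an.E

set_option autoImplicit false

namespace Pool.Agent.H.MP_067393_an

open scoped TensorProduct
open Filter Topology Finset

variable {I : Type} [DecidableEq I] (c : ℕ → ℕ → L I →L[ℂ] L I) (p : ℕ → L I →L[ℂ] L I)

/-- the algebra -/
noncomputable def Alg : NonUnitalSubalgebra ℂ (L I →L[ℂ] L I) where
  carrier := {T | Tendsto (fun N : Finset I => mo N 1 * T) atTop (𝓝 T) ∧
    (∀ n, Tendsto (fun K => T * c n K) atTop (𝓝 (T * p n))) ∧
    Tendsto (fun n => T * p n) atTop (𝓝 T)}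
  add_mem' ha hb := by
    simpa only [Set.mem_ofPred_eq, mul_add, add_mul] using
      ⟨ha.1.add hb.1, fun n => (ha.2.1 n).add (hb.2.1 n), ha.2.2.add hb.2.2⟩
  zero_mem' := by simp
  mul_mem' {a b} ha hb := ⟨by simpa only [mul_assoc] using ha.1.mul_const b,
    fun n => by simpa only [mul_assoc] using (hb.2.1 n).const_mul a,
    by simpa only [mul_assoc] using hb.2.2.const_mul a⟩
  smul_mem' r a ha := by
    simpa only [Set.mem_ofPred_eq, mul_smul_comm, smul_mul_assoc] using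
      ⟨ha.1.const_smul r, fun n => (ha.2.1 n).const_smul r, ha.2.2.const_smul r⟩

noncomputable instance : NormedSpace ℂ (Alg c p) := ⟨fun r a => norm_smul_le r a.1⟩

variable {c p}

lemma clz {B ι : Type} [NormedRing B] {F : Filter ι} {u v : ι → B} {M : ℝ}
    (h : ∀ i, ‖u i‖ * ‖v i‖ ≤ M) {g : B → B} (hg : Continuous g) :
    IsClosed {T | Tendsto (fun i => u i * T * v i) F (𝓝 (g T))} :=
  (LipschitzWith.uniformEquicontinuous (fun i T => u i * T * v i) M.toNNReal fun i =>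
    LipschitzWith.of_dist_le' fun S T => by
      rw [dist_eq_norm, dist_eq_norm, ← sub_mul, ← mul_sub]
      refine (norm_mul_le_of_le (norm_mul_le _ _) le_rfl).trans ?_
      rw [mul_right_comm]
      exact mul_le_mul_of_nonneg_right (h i) (norm_nonneg _)).equicontinuous.isClosed_setOfPred_tendsto
    hg

lemma nmo (N : Finset I) : ‖mo N 1‖ ≤ 1 := by simpa using mo_norm N 1

lemma Alg.closed (hp : ∀ n, ‖p n‖ ≤ 1) (hc : ∀ n, ∃ M, ∀ K, ‖c n K‖ ≤ M) :
    IsClosed (Alg c p : Set (L I →L[ℂ] L I)) := by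
  have o : ‖(1 : L I →L[ℂ] L I)‖ ≤ 1 := ContinuousLinearMap.norm_id_le
  refine IsClosed.and ?_ (IsClosed.and ?_ ?_)
  · simpa using clz (F := atTop) (v := fun _ => 1) (fun N : Finset I =>
      mul_le_one₀ (nmo N) (norm_nonneg _) o) continuous_id
  · rw [Set.ofPred_forall]
    refine isClosed_iInter fun n => ?_
    obtain ⟨M, hM⟩ := hc n
    simpa using clz (F := atTop) (u := fun _ => 1) (fun K => mul_le_mul o (hM K) (norm_nonneg _)
      zero_le_one) (continuous_mul_const (p n))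
  · simpa using clz (F := atTop) (u := fun _ => 1) (fun n =>
      mul_le_one₀ o (norm_nonneg _) (hp n)) continuous_id

lemma nice (hp : ∀ n, ‖p n‖ ≤ 1) (hc : ∀ n, ∃ M, ∀ K, ‖c n K‖ ≤ M)
    (h1 : ∀ s t, mu s t ∈ Alg c p) (h2 : ∀ n K, c n K ∈ Alg c p)
    (h3 : ∀ n K, ∀ᶠ N : Finset I in atTop, mo N 1 * c n K = c n K) :
    ∃ (P : Finset I → Alg c p) (m m' : ∀ N : Finset I, Matrix.orthogonalGroup N ℤ → Alg c p),
      Nice atTop P _ m m' := by
  let φ : ∀ N : Finset I, Matrix N N ℂ →ₗ[ℂ] Alg c p := fun N =>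
    ⟨⟨fun M => ⟨mo N M, sum_mem fun s _ => sum_mem fun t _ => (Alg c p).smul_mem _ (h1 _ _)⟩,
      fun _ _ => Subtype.ext (map_add _ _ _)⟩, fun _ _ => Subtype.ext (map_smul _ _ _)⟩
  have hφ : ∀ N M M', φ N (M * M') = φ N M * φ N M' := fun N M M' => Subtype.ext (mo_mul N M M')
  let R : ℕ → Alg c p →L[ℂ] Alg c p := fun n => LinearMap.mkContinuous
    ⟨⟨fun a => ⟨a.1 * p n, (Alg.closed hp hc).mem_of_tendsto (a.2.2.1 n)
      (.of_forall fun K => mul_mem a.2 (h2 n K))⟩, fun _ _ => Subtype.ext (add_mul _ _ _)⟩,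
      fun _ _ => Subtype.ext (smul_mul_assoc _ _ _)⟩ 1 fun a =>
      (norm_mul_le a.1 _).trans (by rw [mul_comm]; gcongr; exact hp n; rfl)
  refine ⟨fun N => φ N 1, fun N g => φ N (cm g), fun N g => φ N (cm g⁻¹), fun _ => inferInstance,
    fun a => tendsto_subtype_rng.2 a.2.1, nmo, fun N => by rw [← hφ, one_mul], mo_norm,
    fun N g => mo_norm N _, fun N g => by rw [← hφ, ← map_mul, mul_inv_cancel, map_one],
    fun N g => by rw [← hφ, mul_one], fun N a b ha hb => dg2 (φ N) (hφ N)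
      (Subtype.ext (mo_corner N (congrArg Subtype.val ha))) hb,
    R, fun n K => ⟨c n K, h2 n K⟩, fun n => LinearMap.mkContinuous_norm_le _ zero_le_one _,
    fun a => tendsto_subtype_rng.2 a.2.2.2, hc, fun n a => tendsto_subtype_rng.2 (a.2.2.1 n),
    fun n K => (h3 n K).mono fun N h => Subtype.ext h⟩

lemma exK (m : ℕ) : ∃ (Ω : Type) (_ : Fintype Ω) (_ : DecidableEq Ω) (K K' : Matrix Ω Ω ℂ),
    K * K = K ∧ K * K' = K ∧ (∀ a b, ‖K' a b‖ * Fintype.card Ω ≤ (3 / 2) ^ m) ∧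
      K.trace = 2 ^ m := by
  have h : ∀ u v w : Matrix (Fin 3) (Fin 3) ℂ, u * v = w →
      (Matrix.of fun a b : Fin m → Fin 3 => ∏ i, u (a i) (b i)) *
        (Matrix.of fun a b => ∏ i, v (a i) (b i)) = Matrix.of fun a b => ∏ i, w (a i) (b i) := by
    rintro u v _ rfl
    ext a b
    simp [Matrix.mul_apply, prod_univ_sum, prod_mul_distrib]
  refine ⟨Fin m → Fin 3, inferInstance, inferInstance, _, _,
    h (.of fun a b => if a = b then 2 / 3 else -1 / 3) _ _ ?_,
    h _ (.of fun a b => if a = b then 1 / 2 else -1 / 2) _ ?_, fun a b => ?_, ?_⟩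
  · ext a b
    fin_cases a <;> fin_cases b <;> simp [Matrix.mul_apply, Fin.sum_univ_three] <;> norm_num
  · ext a b
    fin_cases a <;> fin_cases b <;> simp [Matrix.mul_apply, Fin.sum_univ_three] <;> norm_num
  · simp only [Matrix.of_apply, norm_prod]
    rw [prod_congr rfl (g := fun _ => 1 / 2) fun i _ => by split_ifs <;> simp]
    simp [div_eq_mul_inv, mul_pow, mul_comm]
  · simp [Matrix.trace]
    field_simp

end Pool.Agent.H.MP_067393_an
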