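import Pool.Agent.H.MP_067393_an.F

set_option autoImplicit false

namespace Pool.Agent.H.MP_067393_an

open scoped TensorProduct
open Filter Topology Finset

variable {Ω : ℕ → Type} [∀ m, Fintype (Ω m)] [∀ m, DecidableEq (Ω m)]
  {K : ∀ m, Matrix (Ω m) (Ω m) ℂ}

lemma exc (hK : ∀ m, K m * K m = K m) :
    ∃ (c : ℕ → ℕ → L ((Σ m, Ω m) × ℕ) →L[ℂ] L ((Σ m, Ω m) × ℕ))
    (p : ℕ → L ((Σ m, Ω m) × ℕ) →L[ℂ] L ((Σ m, Ω m) × ℕ)),
    (∀ n t, p n (e t) = if t.1.1 ≤ n then e t else 0) ∧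
    (∀ n k t, c n k (e t) = if t.1.1 ≤ n then if t.2 < k then e t else
      ∑ w, K _ w t.1.2 • e (⟨t.1.1, w⟩, k) else 0) ∧
    (∀ n, ‖p n‖ ≤ 1) ∧ (∀ n, ∃ M, ∀ K, ‖c n K‖ ≤ M) ∧ (∀ s t, mu s t ∈ Alg c p) ∧
    (∀ n K, c n K ∈ Alg c p) ∧ ∀ n K, ∀ᶠ N : Finset _ in atTop, mo N 1 * c n K = c n K := by
  have b1 : ∀ n (t : (Σ m, Ω m) × ℕ), ‖if t.1.1 ≤ n then e t else 0‖ ≤ 1 := fun n t => by
    split_ifs <;> simp [norm_e]
  have b2 : ∀ n k (t : (Σ m, Ω m) × ℕ), ‖if t.1.1 ≤ n then if t.2 < k then e t else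
      ∑ w, K _ w t.1.2 • e (⟨t.1.1, w⟩, k) else 0‖ ≤
      1 + ∑ m ∈ range (n + 1), ∑ v, ∑ w, ‖K m w v‖ := fun n k t => by
    have : 0 ≤ ∑ m ∈ range (n + 1), ∑ v, ∑ w, ‖K m w v‖ := by positivity
    split_ifs with h
    · simpa [norm_e]
    · refine (norm_sum_le _ _).trans (le_add_of_nonneg_of_le zero_le_one ?_)
      simp only [norm_smul, norm_e, mul_one]
      exact (single_le_sum (f := fun v => ∑ w, ‖K _ w v‖) (fun _ _ => by positivity)
        (mem_univ _)).trans (single_le_sum (f := fun m => ∑ v, ∑ w, ‖K m w v‖)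
        (fun _ _ => by positivity) (mem_range.2 (Nat.lt_succ_of_le h)))
    · rw [norm_zero]; positivity
  choose p hp using fun n => exO _ (b1 n)
  choose c hc using fun n k => exO _ (b2 n k)
  have Pe : ∀ {N : Finset ((Σ m, Ω m) × ℕ)} {s}, s ∈ N → mo N 1 (e s) = e s := fun h => by
    simp [mo_one, e_apply, h]
  have h3 : ∀ n K, ∀ᶠ N : Finset _ in atTop, mo N 1 * c n K = c n K := fun n k =>
    (eventually_ge_atTop (((range (n + 1)).sigma fun _ => univ) ×ˢ range (k + 1))).mono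
      fun N hN => oext fun t => by
        rw [mul_apply_eq_comp, hc]
        split_ifs with h1 h2
        · exact Pe (hN (by simp; omega))
        · rw [map_sum]
          exact sum_congr rfl fun w _ => by rw [map_smul, Pe (hN (by simp; omega))]
        · simp
  refine ⟨c, p, hp, hc, fun n => opn _ zero_le_one fun t => (hp n t).symm ▸ b1 n t,
    fun n => ⟨_, fun k => opn _ (by positivity) fun t => (hc n k t).symm ▸ b2 n k t⟩,
    fun s t => ⟨tendsto_nhds_of_eventually_eq ((eventually_ge_atTop {s}).mono fun N hN =>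
      oext fun u => ?_), fun n => tendsto_nhds_of_eventually_eq ((eventually_gt_atTop t.2).mono
      fun k hk => oext fun u => ?_), tendsto_nhds_of_eventually_eq
      ((eventually_ge_atTop t.1.1).mono fun n hn => oext fun u => ?_)⟩,
    fun n k => ⟨tendsto_nhds_of_eventually_eq (h3 n k), fun n' => tendsto_nhds_of_eventually_eq
      ((eventually_ge_atTop k).mono fun k' hk => oext fun u => ?_), tendsto_nhds_of_eventually_eq
      ((eventually_ge_atTop n).mono fun n' hn => oext fun u => ?_)⟩, h3⟩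
  · rw [mul_apply_eq_comp, mu_apply, map_smul, Pe (hN (mem_singleton_self s))]
  · simp only [mul_apply_eq_comp, hc, hp]
    split_ifs with h1 h2
    · rfl
    · simp [mu_apply, e_apply, show t ≠ u by rintro rfl; omega, Prod.ext_iff, hk.ne]
    · rfl
  · simp only [mul_apply_eq_comp, hp]
    split_ifs with h1
    · rfl
    · simp [mu_apply, e_apply, show t ≠ u by rintro rfl; omega]
  · simp only [mul_apply_eq_comp, hc n', hp]
    split_ifs with h1 h2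
    · rfl
    · simp only [map_sum, map_smul, hc, not_lt.2 hk, show ¬u.2 < k by omega, if_false]
      split_ifs
      · conv_rhs => rw [← hK]
        simp only [smul_sum, smul_smul, Matrix.mul_apply, sum_smul]
        rw [sum_comm]
        exact sum_congr rfl fun _ _ => sum_congr rfl fun _ _ => by rw [mul_comm]
      · simp
    · rfl
  · simp only [mul_apply_eq_comp, hp]
    split_ifs with h1
    · rfl
    · rw [hc, if_neg (by omega), map_zero]

variable (K) in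
/-- test functionals -/
def V : Submodule ℂ (L (Σ m, Ω m) →L[ℂ] ℂ) where
  carrier := {v | ∀ m w, ∑ u, K m u w * v (e ⟨m, u⟩) = v (e ⟨m, w⟩)}
  add_mem' ha hb m w := by simp [mul_add, sum_add_distrib, ha m w, hb m w]
  zero_mem' := by simp
  smul_mem' c a ha m w := by simp [mul_left_comm _ c, ← mul_sum, ha m w]

lemma exv (hK : ∀ m, K m * K m = K m) (m : ℕ) : ∃ v : Ω m → V K,
    (∀ a b, (v a).1 (e ⟨m, b⟩) = K m a b) ∧ ∀ a j, j.1 ≠ m → (v a).1 (e j) = 0 := by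
  have h : ∀ a, ∃ v : L (Σ m, Ω m) →L[ℂ] ℂ,
      (∀ b, v (e ⟨m, b⟩) = K m a b) ∧ ∀ j, j.1 ≠ m → v (e j) = 0 := fun a =>
    ⟨∑ w, K m a w • lp.evalCLM ℂ _ 1 ⟨m, w⟩, fun b => by simp [lp.evalCLM, e_apply],
      fun j hj => by simp [lp.evalCLM, e_apply, show ∀ w, (⟨m, w⟩ : Σ m, Ω m) ≠ j from
        fun w h => hj (h ▸ rfl)]⟩
  choose v v1 v2 using h
  refine ⟨fun a => ⟨v a, fun m' w => ?_⟩, v1, v2⟩
  by_cases h : m' = m
  · subst h
    simp only [v1]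
    conv_rhs => rw [← hK, Matrix.mul_apply]
    exact sum_congr rfl fun _ _ => mul_comm _ _
  · simp [v2 a ⟨m', _⟩ h]

lemma exV (hK : ∀ m, K m * K m = K m) : ∃ (W : Type) (_ : NormedAddCommGroup W)
    (_ : NormedSpace ℂ W) (δ : (Σ m, Ω m) → W →L[ℂ] ℂ), (∀ j, ‖δ j‖ ≤ 1) ∧
    (∀ w r, 0 ≤ r → (∀ j, ‖δ j w‖ ≤ r) → ‖w‖ ≤ r) ∧
    (∀ m w, ∑ u, K m u w • δ ⟨m, u⟩ = δ ⟨m, w⟩) ∧ ∀ m, ∃ v : Ω m → W,
      (∀ a b, δ ⟨m, b⟩ (v a) = K m a b) ∧ ∀ a j, j.1 ≠ m → δ j (v a) = 0 :=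
  ⟨V K, inferInstance, inferInstance, fun j => ContinuousLinearMap.apply ℂ ℂ (e j) ∘L (V K).subtypeL,
    fun j => ContinuousLinearMap.opNorm_le_bound _ zero_le_one fun w => by
      simpa [norm_e] using w.1.le_opNorm (e j), fun w _ h => opn w.1 h,
    fun m w => ContinuousLinearMap.ext fun v => by simpa using v.2 m w, exv hK⟩

variable {W : Type} [NormedAddCommGroup W] [NormedSpace ℂ W] {δ : (Σ m, Ω m) → W →L[ℂ] ℂ}

omit [∀ m, DecidableEq (Ω m)] in
lemma key (hn : ∀ w r, 0 ≤ r → (∀ j, ‖δ j w‖ ≤ r) → ‖w‖ ≤ r) {I : Type} [DecidableEq I] {m : ℕ}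
    {K' : Matrix (Ω m) (Ω m) ℂ} (h : K m * K' = K m)
    {η : ℝ} (η0 : 0 ≤ η) (hη : ∀ a b, ‖K' a b‖ ≤ η) {v : Ω m → W}
    (v1 : ∀ a b, δ ⟨m, b⟩ (v a) = K m a b) (v2 : ∀ a j, j.1 ≠ m → δ j (v a) = 0)
    (x : L I →L[ℂ] W →L[ℂ] ℂ) (y : Ω m → L I) :
    ‖∑ a, x (y a) (v a)‖ ≤ ‖x‖ * (η * ∑ b, ‖∑ a, K m a b • y a‖) := by
  have s1 : HasSum (fun t => x (e t) (∑ a, y a t • v a)) (∑ a, x (y a) (v a)) := by
    simpa using hasSum_sum fun a (_ : a ∈ univ) => (x.flip (v a)).hasSum (hs (y a))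
  refine s1.norm_le_of_bounded (((hasSum_sum fun b _ => nrm (∑ a, K m a b • y a)).mul_left
    η).mul_left ‖x‖) fun t => (x.le_opNorm₂ _ _).trans ?_
  rw [norm_e, mul_one]
  refine mul_le_mul_of_nonneg_left (hn _ _ (by positivity) fun ⟨m', w⟩ => ?_) x.opNorm_nonneg
  by_cases k : m' = m
  · subst k
    have : δ ⟨m', w⟩ (∑ a, y a t • v a) = ∑ b, K' b w * (∑ a, K m' a b • y a) t := by
      conv_lhs => simp [v1]; rw [← h]
      simp only [Matrix.mul_apply, mul_sum, lp.coeFn_sum, Finset.sum_apply, lp.coeFn_smul,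
        Pi.smul_apply, smul_eq_mul]
      rw [sum_comm]
      exact sum_congr rfl fun _ _ => sum_congr rfl fun _ _ => by ring
    rw [this, mul_sum]
    exact norm_sum_le_of_le _ fun b _ => norm_mul_le_of_le (hη _ _) le_rfl
  · simp only [map_sum, map_smul, v2 _ ⟨m', w⟩ k, smul_zero, sum_const_zero, norm_zero]
    positivity

lemma ulim {X : Type} [AddCommGroup X] [Module ℂ X] (U : Ultrafilter ℕ) (f : ℕ → X →ₗ[ℂ] ℂ)
    (h : ∀ x, ∃ M, ∀ k, ‖f k x‖ ≤ M) : ∃ g : X →ₗ[ℂ] ℂ, ∀ x, Tendsto (f · x) U (𝓝 (g x)) := by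
  have : ∀ x, ∃ z, Tendsto (f · x) U (𝓝 z) := fun x => by
    obtain ⟨M, hM⟩ := h x
    obtain ⟨z, -, hz⟩ := (isCompact_closedBall (0 : ℂ) M).ultrafilter_le_nhds (U.map (f · x))
      (le_principal_iff.2 (mem_map.2 (univ_mem' fun k => mem_closedBall_zero_iff.2 (hM k))))
    exact ⟨z, hz⟩
  choose g hg using this
  exact ⟨⟨⟨g, fun x y => tendsto_nhds_unique (hg _) (by simpa using (hg x).add (hg y))⟩,
    fun c x => tendsto_nhds_unique (hg _) (by simpa using (hg x).const_mul c)⟩, hg⟩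

end Pool.Agent.H.MP_067393_an
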