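import Pool.Agent.H.MP_067393_an.G

set_option autoImplicit false

namespace Pool.Agent.H.MP_067393_an

open scoped TensorProduct
open Filter Topology Finset

lemma ncl {A X : Type} [NonUnitalNormedRing A] [NormedSpace ℂ A] [NormedAddCommGroup X]
    [NormedSpace ℂ X] [CompleteSpace X] {r : A →L[ℂ] X →L[ℂ] X}
    {d : ∀ n, C A X (n + 1) →L[ℂ] C A X n} (hd : IsBd 0 r d) {x : X} {a : ℕ → A}
    (ha : Tendsto (fun n => r (a n) x) atTop (𝓝 x)) (Λ : ℕ → ℕ → X →ₗ[ℂ] ℂ)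
    (h1 : ∀ m, ∃ M, 0 ≤ M ∧ ∀ k y, ‖Λ m k y‖ ≤ M * ‖y‖) (h2 : ∀ m k, Λ m k x = (7 / 4) ^ m)
    (h3 : ∀ m y b, ∃ f : ℕ → ℝ, Tendsto f atTop (𝓝 ((3 / 2) ^ m * (‖y‖ * ‖b‖))) ∧
      ∀ k, ‖Λ m k (r b y)‖ ≤ f k) : ¬ IsClosed (Set.range (d 0)) := fun h => by
  have d0 : ∀ x a w, d 0 (el x (Fin.cons a w)) = el (r a x) ![] := fun x a w => by
    rw [dD hd, D_zero]
    simp [← elM_apply]
  obtain ⟨w, hw⟩ : el x ![] ∈ Set.range (d 0) := by
    refine h.mem_of_tendsto (b := atTop) (f := fun n => el (r (a n) x) ![]) ?_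
      (.of_forall fun n => ⟨_, d0 x (a n) ![]⟩)
    refine tendsto_iff_norm_sub_tendsto_zero.2 (squeeze_zero (fun _ => norm_nonneg _) (fun n => ?_)
      (tendsto_iff_norm_sub_tendsto_zero.1 ha))
    rw [← elM_apply, ← elM_apply, ← _root_.sub_apply, ← map_sub]
    exact (norm_el (A := A) (r (a n) x - x) ![]).trans_eq (by simp)
  obtain ⟨π, -, hπ⟩ := ex0 (A := A) (X := X) (G := X) LinearMap.id zero_le_one (by simp)
  have k : ∀ m, (7 / 4 : ℝ) ^ m ≤ (3 / 2) ^ m * ‖w‖ := fun m => by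
    obtain ⟨M, M0, hM⟩ := h1 m
    obtain ⟨g, hg⟩ := ulim (hyperfilter ℕ) (Λ m) fun y => ⟨M * ‖y‖, fun k => hM k y⟩
    obtain ⟨T, T1, T2⟩ := ex1 (LinearMap.mk₂ ℂ (fun y b => g (r b y)) (by simp) (by simp) (by simp)
      (by simp)) (K := (3 / 2) ^ m) (by positivity) fun y b => by
        obtain ⟨f, f1, f2⟩ := h3 m y b
        exact le_of_tendsto_of_tendsto' (hg _).norm (f1.mono_left Nat.hyperfilter_le_atTop) f2
    let S : ℕ → C A X 1 →L[ℂ] ℂ := fun k => T - (Λ m k).mkContinuous M (hM k) ∘L π ∘L d 0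
    have S1 : ∀ k u, S k u = T u - Λ m k (π (d 0 u)) := fun _ _ => rfl
    have S2 : ∀ k, ‖S k‖ ≤ _ := fun k => norm_sub_le_of_le le_rfl
      (ncomp (LinearMap.mkContinuous_norm_le _ M0 _) le_rfl)
    have t := tend (F := hyperfilter ℕ) S2 (fun y b => by
      rw [← Fin.cons_self_tail b]
      simp only [S1, T2, d0, hπ]
      simpa using (hg (r (b 0) y)).const_sub (g (r (b 0) y))) w
    simp only [S1, hw, hπ, LinearMap.id_apply, h2, tendsto_const_nhds_iff, sub_eq_zero] at t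
    have := T.le_of_opNorm_le T1 w
    simpa [t] using this
  obtain ⟨m, hm⟩ := pow_unbounded_of_one_lt ‖w‖ (show (1 : ℝ) < 7 / 6 by norm_num)
  have := k m
  rw [show (7 / 4 : ℝ) = 3 / 2 * (7 / 6) by norm_num, mul_pow] at this
  exact absurd (le_of_mul_le_mul_left this (by positivity)) (not_le.2 hm)

lemma exr {I Z : Type} [DecidableEq I] [NormedAddCommGroup Z] [NormedSpace ℂ Z]
    (c : ℕ → ℕ → L I →L[ℂ] L I) (p : ℕ → L I →L[ℂ] L I) :
    ∃ r : Alg c p →L[ℂ] (L I →L[ℂ] Z) →L[ℂ] L I →L[ℂ] Z, ∀ a y f, r a y f = y (a.1 f) :=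
  ⟨LinearMap.mkContinuous₂ (LinearMap.mk₂ ℂ (fun (a : Alg c p) (y : L I →L[ℂ] Z) => y ∘L a.1)
    (fun _ _ _ => ContinuousLinearMap.comp_add _ _ _) (fun _ _ _ => ContinuousLinearMap.comp_smul _ _ _)
    (fun _ _ _ => rfl) (fun _ _ _ => rfl)) 1 fun a y => by
      rw [one_mul, mul_comm]; exact y.opNorm_comp_le a.1, fun _ _ _ => rfl⟩

lemma exΛ {I W α : Type} [DecidableEq I] [NormedAddCommGroup W] [NormedSpace ℂ W] [Fintype α]
    (t : α → I) (v : α → W) : ∃ Λ : (L I →L[ℂ] W →L[ℂ] ℂ) →ₗ[ℂ] ℂ,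
      (∀ y, ‖Λ y‖ ≤ (∑ a, ‖v a‖) * ‖y‖) ∧ ∀ y, Λ y = ∑ a, y (e (t a)) (v a) := by
  refine ⟨⟨⟨fun y => ∑ a, y (e (t a)) (v a), by simp [sum_add_distrib]⟩,
    by simp [mul_sum]⟩, fun y => ?_, fun _ => rfl⟩
  rw [sum_mul]
  exact norm_sum_le_of_le _ fun a _ => by
    simpa [norm_e, mul_comm] using y.le_opNorm₂ (e (t a)) (v a)

theorem main : ∃ (A : Type) (_ : NonUnitalNormedRing A) (_ : NormedSpace ℂ A)
    (_ : IsScalarTower ℂ A A) (_ : SMulCommClass ℂ A A) (_ : CompleteSpace A),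
    (∃ (ι : Type) (F : Filter ι) (_ : F.NeBot) (P : ι → A) (Γ : ι → Type) (_ : ∀ i, Fintype (Γ i))
      (m m' : ∀ i, Γ i → A), Nice F P Γ m m') ∧
    ∃ (X : Type) (_ : NormedAddCommGroup X) (_ : NormedSpace ℂ X) (_ : CompleteSpace X)
      (r : A →L[ℂ] X →L[ℂ] X), IsBimod 0 r ∧ ∀ d, IsBd 0 r d → ¬ IsClosed (Set.range (d 0)) := by
  choose Ω _ _ K K' k1 k2 k3 k4 using exK
  obtain ⟨c, p, hp, hc, n1, n2, n3, n4, n5⟩ := exc k1
  obtain ⟨W, _, _, δ, d1, d2, d3, d4⟩ := exV k1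
  choose v v1 v2 using d4
  obtain ⟨P, m, m', N⟩ := nice n1 n2 n3 n4 n5
  have b : ∀ t : (Σ m, Ω m) × ℕ, ‖(7 / 8 : ℂ) ^ t.1.1 • δ t.1‖ ≤ (7 / 8) ^ t.1.1 := fun t => by
    rw [norm_smul]
    simpa using mul_le_of_le_one_right (norm_nonneg ((7 / 8 : ℂ) ^ t.1.1)) (d1 t.1)
  obtain ⟨x, hx⟩ := exO _ fun t => (b t).trans (pow_le_one₀ (by norm_num) (by norm_num))
  obtain ⟨r, hr⟩ := exr (Z := W →L[ℂ] ℂ) c p
  choose Λ l1 l2 using fun m k => exΛ (fun a => ((⟨m, a⟩, k) : (Σ m, Ω m) × ℕ)) (v m)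
  refine ⟨Alg c p, inferInstance, inferInstance, inferInstance, inferInstance,
    (Alg.closed n1 n2).completeSpace_coe, ⟨_, _, inferInstance, P, _, _, m, m', N⟩,
    L ((Σ m, Ω m) × ℕ) →L[ℂ] W →L[ℂ] ℂ, inferInstance, inferInstance, inferInstance, r,
    ⟨fun _ _ _ => rfl, fun a b y => ContinuousLinearMap.ext fun f => ?_, fun _ _ _ =>
      (map_zero _).symm⟩, fun d hd => ncl hd (x := x) (a := fun n => ⟨c n 0, n4 n 0⟩) ?_ Λ
      (fun m => ⟨_, by positivity, l1 m⟩) (fun m k => ?_) fun m y a => ?_⟩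
  · rw [hr, hr, hr]; rfl
  · refine tendsto_iff_norm_sub_tendsto_zero.2 (squeeze_zero
      (fun _ => ContinuousLinearMap.opNorm_nonneg _) (fun n => ?_)
      (tendsto_pow_atTop_nhds_zero_of_lt_one (r := (7 / 8 : ℝ)) (by norm_num) (by norm_num)))
    refine opn _ (by positivity) fun t => ?_
    rw [_root_.sub_apply, hr, hc]
    split_ifs with h1 h2
    · omega
    · simp only [map_sum, map_smul, hx, smul_comm _ ((7 / 8 : ℂ) ^ _), ← smul_sum, d3, sub_self,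
        norm_zero]
      positivity
    · rw [map_zero, zero_sub, norm_neg, hx]
      exact (b t).trans (pow_le_pow_of_le_one (by norm_num) (by norm_num) (by omega))
  · have := k4 m
    simp only [Matrix.trace, Matrix.diag] at this
    simp only [l2, hx, _root_.smul_apply, v1, smul_eq_mul, ← mul_sum, this, ← mul_pow]
    norm_num
  · refine ⟨fun k => (3 / 2) ^ m * (‖y‖ * (‖a.1 * c m k‖ - ‖a.1 * p m‖ + ‖a‖)), by
      simpa using ((((a.2.2.1 m).norm.sub_const ‖a.1 * p m‖).add_const ‖a‖).const_mul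
        ‖y‖).const_mul ((3 / 2) ^ m), fun k => ?_⟩
    simp only [l2, hr]
    refine (key d2 (k2 m) (η := (3 / 2) ^ m / Fintype.card (Ω m)) (by positivity) (fun a b =>
      (le_div_iff₀ (by exact_mod_cast Fintype.card_pos_iff.2 ⟨a⟩)).2 (k3 m a b)) (v1 m) (v2 m)
      y _).trans ?_
    have k1 : ‖a.1 * p m‖ ≤ ‖a‖ := (norm_mul_le _ _).trans (mul_le_of_le_one_right (norm_nonneg _)
      (n1 m))
    have k2 : ∀ b, ‖∑ u, K m u b • a.1 (e (⟨m, u⟩, k))‖ ≤ ‖a.1 * c m k‖ := fun b => by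
      simpa [hc, norm_e] using (a.1 * c m k).le_opNorm (e (⟨m, b⟩, k))
    have k3 : (3 / 2 : ℝ) ^ m / Fintype.card (Ω m) * Fintype.card (Ω m) ≤ (3 / 2) ^ m := by
      rw [div_mul_comm]
      exact mul_le_of_le_one_left (by positivity) (div_self_le_one _)
    rw [mul_left_comm ((3 / 2 : ℝ) ^ m)]
    refine mul_le_mul_of_nonneg_left ((mul_le_mul_of_nonneg_left ((sum_le_sum fun b _ =>
      k2 b).trans_eq (by rw [sum_const, card_univ, nsmul_eq_mul])) (by positivity)).trans ?_)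
      y.opNorm_nonneg
    rw [← mul_assoc]
    exact mul_le_mul k3 (by linarith) (norm_nonneg _) (by positivity)

end Pool.Agent.H.MP_067393_an
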